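import Mathlib
import Pool.Agent.H560R3.GB.LamE
import Pool.Agent.H373R2.T7.Fund
import Pool.Agent.H373R2.T7.SupMu
import Pool.Agent.H373R2.T7.Telesc

/-!
# The Möbius function on the `n` for which `f(n) + m` is prime, for almost all `m`

Let `f` be a nonconstant integer polynomial of degree `d`. For all integers `|m| ≤ B x^d` but at most
`x^d / (log x)^U` the Möbius function cancels over the `n ≤ x` for which `f(n) + m` is prime.

The proof uses the bilinear estimate `Pool/Agent/H560R3/GB/LamE.lean`, the Siegel-Walfisz theorem for the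
Möbius function and the Brun-Hooley sieve with weights (starting files).
-/

set_option autoImplicit false

namespace Pool.Agent.Results.MP_0bfb7f_nt.PrimesAlongPolynomials

open Finset Polynomial Pool.Agent.H373R2.T7 Pool.Agent.H560R3.GB

lemma class_sum (h : ℕ → ℝ) (X d : ℕ) (hd : 1 ≤ d) (R : ℕ → Prop) [DecidablePred R] (hR : ∀ n, R n ↔ R (n % d)) (Eb : ℝ)
    (hE : ∀ a : ℕ, |∑ n ∈ (Icc 1 X).filter (fun n => n ≡ a [MOD d]), h n| ≤ Eb) :
    |∑ n ∈ (Icc 1 X).filter R, h n| ≤ d * Eb := by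
  have h1 : ∑ n ∈ (Icc 1 X).filter R, h n =
      ∑ a ∈ range d, ∑ n ∈ ((Icc 1 X).filter R).filter (fun n => n % d = a), h n :=
    (sum_fiberwise_of_maps_to (fun n _ => mem_range.2 (Nat.mod_lt _ hd)) _).symm
  rw [h1]
  refine (abs_sum_le_sum_abs _ _).trans ?_
  calc _ ≤ ∑ _a ∈ range d, Eb := sum_le_sum fun a ha => ?_
    _ = d * Eb := by rw [sum_const, card_range, nsmul_eq_mul]
  have haa : a % d = a := Nat.mod_eq_of_lt (mem_range.1 ha)
  by_cases hRa : R a
  · have : ((Icc 1 X).filter R).filter (fun n => n % d = a) = (Icc 1 X).filter (fun n => n ≡ a [MOD d]) := by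
      ext n
      simp only [mem_filter, mem_Icc]
      constructor
      · rintro ⟨⟨h1, _⟩, h2⟩
        refine ⟨h1, ?_⟩
        unfold Nat.ModEq
        rw [h2, haa]
      · rintro ⟨h1, h2⟩
        have h3 : n % d = a := by rw [← haa]; exact h2
        refine ⟨⟨h1, (hR n).2 ?_⟩, h3⟩
        rw [h3]
        exact hRa
    rw [this]
    exact hE a
  · have : ((Icc 1 X).filter R).filter (fun n => n % d = a) = ∅ := by
      apply filter_eq_empty_iff.2
      intro n hn h2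
      apply hRa
      rw [← h2]
      exact (hR n).1 (mem_filter.1 hn).2
    rw [this, sum_empty, abs_zero]
    exact (abs_nonneg _).trans (hE a)

open Classical in
theorem core (c : ℕ) : ∃ C0 : ℕ, 1 ≤ C0 ∧ ∀ b : ℕ, C0 ≤ b → ∀ y X : ℕ, C0 + c + 3 ≤ y →
    ∀ Q : ℕ → ℕ → Prop, PerB Q c → ∀ (h : ℕ → ℝ) (Eb : ℝ), (∀ n, |h n| ≤ 1) →
    (∀ q : ℕ, 1 ≤ q → q ≤ (∏ p ∈ pz (C0 + c), p) * y ^ (2 * (C0 * b)) → ∀ a : ℕ,
      |∑ n ∈ (Icc 1 X).filter (fun n => n ≡ a [MOD q]), h n| ≤ Eb) →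
    |∑ n ∈ (Icc 1 X).filter (fun n : ℕ => ∀ p ∈ pz y, ¬ Q p n), (1 + h n) -
      X * ∏ p ∈ pz y, (1 - (nuB Q p : ℝ) / p)| ≤
      (1 / 2 : ℝ) ^ b * (X * ∏ p ∈ pz y, (1 - (nuB Q p : ℝ) / p)) +
      (2 * y) * (y ^ (2 * (C0 * b)) * ((∏ p ∈ pz (C0 + c), p : ℕ) * y ^ (2 * (C0 * b)) * (1 + Eb))) := by
  obtain ⟨C0, hC0, hFL⟩ := Pool.Agent.H20R2.fLem c
  refine ⟨C0, hC0, fun b hbC y X hyz Q hQ h Eb hh hE => ?_⟩
  have hb1' : 1 ≤ b := hC0.trans hbC
  set z0 := C0 + c with hz0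
  set K0 : ℕ := ∏ p ∈ pz z0, p with hK0
  have hK01 : 1 ≤ K0 := Nat.pos_of_ne_zero (prod_ne_zero_iff.2 fun p hp => (mem_pz.1 hp).2.ne_zero)
  have hCb : 1 ≤ C0 * b := Nat.mul_pos hC0 hb1'
  set J := JJ y with hJ
  set Y : ℕ := 2 ^ 2 ^ J with hY
  have hyY : y < Y := JJ_lt y
  have hYy : Y ≤ y ^ 2 := JJ_le y (by omega)
  set D : ℕ := Y ^ (C0 * b) with hD
  have hD1 : 1 ≤ D := Nat.one_le_pow _ _ (by omega)
  have hDy : D ≤ y ^ (2 * (C0 * b)) := by
    calc D ≤ (y ^ 2) ^ (C0 * b) := Nat.pow_le_pow_left hYy _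
      _ = _ := by rw [← pow_mul]
  have hEb : 0 ≤ Eb := (abs_nonneg _).trans (hE 1 le_rfl (Nat.mul_pos hK01 (Nat.one_le_pow _ _ (by omega))) 0)
  set P : Finset ℕ := (pz y).filter (fun p => z0 < p) with hP
  have hPp : ∀ p ∈ P, p.Prime ∧ z0 < p ∧ p ≤ Y := by
    intro p hp
    rw [hP, mem_filter] at hp
    exact ⟨(mem_pz.1 hp.1).2, hp.2, ((mem_pz.1 hp.1).1.trans hyY.le)⟩
  have hpzy : pz y = pz z0 ∪ P := by
    ext p
    rw [mem_union, hP, mem_filter, mem_pz, mem_pz]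
    constructor
    · rintro ⟨h1, h2⟩
      rcases Nat.lt_or_ge z0 p with h | h
      · exact Or.inr ⟨⟨h1, h2⟩, h⟩
      · exact Or.inl ⟨h, h2⟩
    · rintro (⟨h1, h2⟩ | ⟨h1, _⟩)
      · exact ⟨by omega, h2⟩
      · exact h1
  have hdisj : Disjoint (pz z0) P := by
    rw [disjoint_left]
    intro p hp hp'
    rw [hP, mem_filter] at hp'
    have := (mem_pz.1 hp).1
    omega
  have hpz0 : ∀ p ∈ pz z0, p.Prime := fun p hp => (mem_pz.1 hp).2
  set A0 : ℝ := ∏ p ∈ pz z0, (1 - (nuB Q p : ℝ) / p) with hA0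
  have hfac : ∀ p : ℕ, p.Prime → 0 ≤ 1 - (nuB Q p : ℝ) / p := by
    intro p hp
    have hp0 : (0 : ℝ) < p := by exact_mod_cast hp.pos
    have h1 : (nuB Q p : ℝ) / p ≤ 1 := by rw [div_le_one hp0]; exact_mod_cast nuB_le Q p
    linarith
  have hA00 : 0 ≤ A0 := prod_nonneg fun p hp => hfac p (hpz0 p hp)
  have key := hFL b J z0 P (fun p => (nuB Q p : ℝ) / p) hbC (by omega) hPp (fun p hp => by
      have hp0 : (0 : ℝ) < p := by exact_mod_cast (hPp p hp).1.pos
      have hp1 : (1 : ℝ) < p := by exact_mod_cast (hPp p hp).1.one_lt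
      refine ⟨by positivity, ?_⟩
      apply div_le_div₀ (Nat.cast_nonneg _) (by exact_mod_cast hQ.few p (hPp p hp).1) (by linarith) (by linarith))
    ((Icc 1 X).filter (fun n => ∀ p ∈ pz z0, ¬ Q p n)) (fun n => 1 + h n) (fun p n => Q p n) (X * A0)
    (fun _ => (K0 : ℝ) * D * (1 + Eb))
    (fun n _ => by have := (abs_le.1 (hh n)).1; linarith) (by positivity) (by
      intro T hT hTD
      have hTp : ∀ p ∈ T, p.Prime := fun p hp => (hPp p (hT hp)).1
      have hdT : Disjoint (pz z0) T := disjoint_of_subset_right hT hdisj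
      have h3 := count_sys (fun p a => if p ≤ z0 then ¬ Q p a else Q p a) X (pz z0 ∪ T) (fun p hp => by
        rcases mem_union.1 hp with h | h
        · exact hpz0 p h
        · exact hTp p h) 1 le_rfl (fun p hp hd => by
          have hpp : p.Prime := by
            rcases mem_union.1 hp with h | h
            · exact hpz0 p h
            · exact hTp p h
          exact hpp.one_lt.ne' (Nat.dvd_one.1 hd)) 0
      have hTz : ∀ p ∈ T, ¬ p ≤ z0 := fun p hp => by have := (hPp p (hT hp)).2.1; omega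
      have c1 : ∀ p ∈ pz z0, (((range p).filter (fun a => if p ≤ z0 then ¬ Q p a else Q p a)).card : ℝ) = p - nuB Q p := by
        intro p hp
        simp only [if_pos (mem_pz.1 hp).1]
        have h4 := card_filter_add_card_filter_not (s := range p) (fun a => Q p a)
        rw [card_range] at h4
        have h5 : nuB Q p = ((range p).filter (fun a => Q p a)).card := rfl
        have h6 : nuB Q p + ((range p).filter (fun a => ¬ Q p a)).card = p := by rw [h5]; exact h4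
        have h7 : (nuB Q p : ℝ) + (((range p).filter (fun a => ¬ Q p a)).card : ℝ) = p := by exact_mod_cast h6
        linarith
      have c2 : ∀ p ∈ T, (((range p).filter (fun a => if p ≤ z0 then ¬ Q p a else Q p a)).card : ℝ) = nuB Q p := by
        intro p hp
        simp only [if_neg (hTz p hp)]
        rfl
      rw [prod_union hdT, prod_union hdT] at h3
      have e1 : ∏ p ∈ pz z0, ((((range p).filter (fun a => if p ≤ z0 then ¬ Q p a else Q p a)).card : ℝ) / p) = A0 := by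
        apply prod_congr rfl
        intro p hp
        rw [c1 p hp]
        have hp0 : (p : ℝ) ≠ 0 := by exact_mod_cast (hpz0 p hp).ne_zero
        field_simp
      have e2 : ∏ p ∈ T, ((((range p).filter (fun a => if p ≤ z0 then ¬ Q p a else Q p a)).card : ℝ) / p) = ∏ p ∈ T, ((nuB Q p : ℝ) / p) := by
        apply prod_congr rfl
        intro p hp
        rw [c2 p hp]
      have e3 : ∏ p ∈ pz z0, (((range p).filter (fun a => if p ≤ z0 then ¬ Q p a else Q p a)).card : ℝ) ≤ K0 := by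
        rw [hK0]
        push_cast
        apply prod_le_prod (fun _ _ => Nat.cast_nonneg _)
        intro p hp
        rw [c1 p hp]
        have : (0 : ℝ) ≤ nuB Q p := Nat.cast_nonneg _
        linarith
      have e4 : ∏ p ∈ T, (((range p).filter (fun a => if p ≤ z0 then ¬ Q p a else Q p a)).card : ℝ) ≤ D := by
        have h5 : ∏ p ∈ T, (((range p).filter (fun a => if p ≤ z0 then ¬ Q p a else Q p a)).card : ℝ) ≤ ∏ p ∈ T, (p : ℝ) := by
          apply prod_le_prod (fun _ _ => Nat.cast_nonneg _)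
          intro p hp
          rw [c2 p hp]
          exact_mod_cast nuB_le Q p
        refine h5.trans ?_
        have h6 : ((∏ p ∈ T, p : ℕ) : ℝ) ≤ D := by exact_mod_cast hTD
        push_cast at h6
        exact h6
      rw [e1, e2, Nat.cast_one, div_one] at h3
      have e5 : ∑ m ∈ ((Icc 1 X).filter (fun n => ∀ p ∈ pz z0, ¬ Q p n)).filter (fun m => ∀ p ∈ T, Q p m), (1 : ℝ) =
          (((Icc 1 X).filter (fun n => n ≡ 0 [MOD 1] ∧ ∀ p ∈ pz z0 ∪ T, if p ≤ z0 then ¬ Q p (n % p) else Q p (n % p))).card : ℝ) := by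
        rw [sum_const, nsmul_eq_mul, mul_one, filter_filter]
        congr 2
        apply filter_congr
        intro n _
        constructor
        · rintro ⟨h5, h6⟩
          refine ⟨Nat.modEq_one, fun p hp => ?_⟩
          rcases mem_union.1 hp with h | h
          · rw [if_pos (mem_pz.1 h).1]
            exact fun h7 => h5 p h ((hQ.per p n).2 h7)
          · rw [if_neg (hTz p h)]
            exact (hQ.per p n).1 (h6 p h)
        · rintro ⟨_, h5⟩
          constructor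
          · intro p hp h7
            have h8 := h5 p (mem_union_left _ hp)
            rw [if_pos (mem_pz.1 hp).1] at h8
            exact h8 ((hQ.per p n).1 h7)
          · intro p hp
            have h8 := h5 p (mem_union_right _ hp)
            rw [if_neg (hTz p hp)] at h8
            exact (hQ.per p n).2 h8
      -- the part with `h`
      set d : ℕ := ∏ p ∈ pz z0 ∪ T, p with hd
      have hdd : d = K0 * ∏ p ∈ T, p := by rw [hd, prod_union hdT]
      have hdD : d ≤ K0 * D := by rw [hdd]; exact Nat.mul_le_mul_left _ hTD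
      have hd1 : 1 ≤ d := Nat.pos_of_ne_zero (prod_ne_zero_iff.2 fun p hp => by
        rcases mem_union.1 hp with h | h
        · exact (hpz0 p h).ne_zero
        · exact (hTp p h).ne_zero)
      have hpd : ∀ p ∈ pz z0 ∪ T, ∀ n, (n % d) % p = n % p := fun p hp n => Nat.mod_mod_of_dvd _ (dvd_prod_of_mem _ hp)
      have e6 := class_sum h X d hd1 (fun n => (∀ p ∈ pz z0, ¬ Q p n) ∧ ∀ p ∈ T, Q p n) (by
        intro n
        constructor
        · rintro ⟨h5, h6⟩
          refine ⟨fun p hp h7 => h5 p hp ?_, fun p hp => ?_⟩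
          · rw [hQ.per, ← hpd p (mem_union_left _ hp), ← hQ.per]; exact h7
          · rw [hQ.per, hpd p (mem_union_right _ hp), ← hQ.per]; exact h6 p hp
        · rintro ⟨h5, h6⟩
          refine ⟨fun p hp h7 => h5 p hp ?_, fun p hp => ?_⟩
          · rw [hQ.per, hpd p (mem_union_left _ hp), ← hQ.per]; exact h7
          · rw [hQ.per, ← hpd p (mem_union_right _ hp), ← hQ.per]; exact h6 p hp) Eb
        (hE d hd1 (hdD.trans (Nat.mul_le_mul_left _ hDy)))
      rw [← filter_filter] at e6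
      rw [sum_add_distrib, e5]
      have e7 : (d : ℝ) * Eb ≤ K0 * D * Eb := by
        apply mul_le_mul_of_nonneg_right _ hEb
        exact_mod_cast hdD
      have e8 : |(((Icc 1 X).filter (fun n => n ≡ 0 [MOD 1] ∧ ∀ p ∈ pz z0 ∪ T, if p ≤ z0 then ¬ Q p (n % p) else Q p (n % p))).card : ℝ) -
          X * (A0 * ∏ p ∈ T, ((nuB Q p : ℝ) / p))| ≤ K0 * D :=
        h3.trans (mul_le_mul e3 e4 (prod_nonneg fun _ _ => Nat.cast_nonneg _) (Nat.cast_nonneg _))
      rw [mul_assoc (X : ℝ) A0]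
      rw [abs_le] at e6 e8 ⊢
      constructor <;> nlinarith [e6.1, e6.2, e8.1, e8.2, e7])
  have f1 : ∑ m ∈ ((Icc 1 X).filter (fun n => ∀ p ∈ pz z0, ¬ Q p n)).filter (fun m => ∀ p ∈ P, ¬ Q p m), (1 + h m) =
      ∑ n ∈ (Icc 1 X).filter (fun n : ℕ => ∀ p ∈ pz y, ¬ Q p n), (1 + h n) := by
    rw [filter_filter]
    apply sum_congr _ (fun _ _ => rfl)
    apply filter_congr
    intro n _
    rw [hpzy]
    constructor
    · rintro ⟨h5, h6⟩ p hp
      rcases mem_union.1 hp with h | h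
      · exact h5 p h
      · exact h6 p h
    · intro h
      exact ⟨fun p hp => h p (mem_union_left _ hp), fun p hp => h p (mem_union_right _ hp)⟩
  have f2 : (X : ℝ) * A0 * ∏ p ∈ P, (1 - (nuB Q p : ℝ) / p) = X * ∏ p ∈ pz y, (1 - (nuB Q p : ℝ) / p) := by
    rw [hpzy, prod_union hdisj, mul_assoc]
  rw [f1, f2] at key
  refine key.trans ?_
  apply add_le_add le_rfl
  rw [sum_const, nsmul_eq_mul]
  have hcard : (P.powerset.filter (fun T : Finset ℕ => ∏ p ∈ T, p ≤ D)).card ≤ D := by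
    calc _ ≤ (Icc 1 D).card := by
          apply card_le_card_of_injOn (fun T : Finset ℕ => ∏ p ∈ T, p)
          · intro T hT
            rw [mem_coe, mem_filter, mem_powerset] at hT
            have h5 : 1 ≤ ∏ p ∈ T, p := Nat.pos_of_ne_zero (prod_ne_zero_iff.2 fun p hp => (hPp p (hT.1 hp)).1.ne_zero)
            exact mem_coe.2 (mem_Icc.2 ⟨h5, hT.2⟩)
          · intro T hT T' hT' h
            rw [mem_coe, mem_filter, mem_powerset] at hT hT'
            exact prod_inj T T' (fun p hp => (hPp p (hT.1 hp)).1) (fun p hp => (hPp p (hT'.1 hp)).1) h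
      _ = D := by rw [Nat.card_Icc]; omega
  have hJy : ((J : ℝ) + 2) ≤ 2 * y := by
    have := JJ_small y (by omega)
    exact_mod_cast this
  have hDr : (D : ℝ) ≤ (y : ℝ) ^ (2 * (C0 * b)) := by exact_mod_cast hDy
  have hcr : ((P.powerset.filter (fun T : Finset ℕ => ∏ p ∈ T, p ≤ D)).card : ℝ) ≤ (y : ℝ) ^ (2 * (C0 * b)) :=
    le_trans (by exact_mod_cast hcard) hDr
  have hE1 : 0 ≤ 1 + Eb := by linarith
  have g1 : 0 ≤ (K0 : ℝ) * D * (1 + Eb) := mul_nonneg (mul_nonneg (Nat.cast_nonneg _) (Nat.cast_nonneg _)) hE1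
  have g2 : 0 ≤ (y : ℝ) ^ (2 * (C0 * b)) := pow_nonneg (Nat.cast_nonneg _) _
  have g3 : 0 ≤ (2 * y : ℝ) := mul_nonneg zero_le_two (Nat.cast_nonneg _)
  exact mul_le_mul hJy (mul_le_mul hcr (mul_le_mul_of_nonneg_right (mul_le_mul_of_nonneg_left hDr (Nat.cast_nonneg _)) hE1)
    g1 g2) (mul_nonneg (Nat.cast_nonneg _) g1) g3

/-- the Siegel-Walfisz property: for all `K`, `U`, if `N` is large and `1 ≤ q ≤ (log N) ^ K` then
`|∑_{n ≤ N, n ≡ a mod q} h(n)| ≤ N / (log N) ^ U` for every `a` -/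
def SiegelWalfisz (h : ℕ → ℝ) : Prop := ∀ K U : ℕ, ∃ N0 : ℕ, ∀ N : ℕ, N0 ≤ N → ∀ q : ℕ, 1 ≤ q →
  (q : ℝ) ≤ Real.log N ^ K → ∀ a : ℕ,
    |∑ n ∈ (Icc 1 N).filter (fun n => n ≡ a [MOD q]), h n| ≤ N / Real.log N ^ U

lemma ev_log_le (C : ℝ) : ∃ x0 : ℕ, ∀ x : ℕ, x0 ≤ x → C ≤ Real.log x :=
  Filter.eventually_atTop.1 ((Real.tendsto_log_atTop.comp tendsto_natCast_atTop_atTop).eventually_ge_atTop C)

lemma ev_pow_le (W : ℕ) : ∃ x0 : ℕ, ∀ x : ℕ, x0 ≤ x → Real.log x ^ W ≤ x := by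
  obtain ⟨x1, hx1⟩ := ev_log_le 1
  have h1 : (fun x : ℝ => Real.log x ^ W) =o[Filter.atTop] (fun x : ℝ => x) := by
    have := isLittleO_log_rpow_rpow_atTop (s := 1) (W : ℝ) one_pos
    simp only [Real.rpow_natCast, Real.rpow_one] at this
    exact this
  have h2 := h1.def (c := 1) one_pos
  obtain ⟨x2, hx2⟩ := Filter.eventually_atTop.1 ((tendsto_natCast_atTop_atTop (R := ℝ)).eventually h2)
  refine ⟨max x1 x2, fun x hx => ?_⟩
  have a1 := hx1 x (le_trans (le_max_left _ _) hx)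
  have a2 := hx2 x (le_trans (le_max_right _ _) hx)
  rw [Real.norm_eq_abs, Real.norm_eq_abs, abs_of_nonneg (by positivity), abs_of_nonneg (by positivity)] at a2
  linarith

open Classical in
theorem h_fund (h : ℕ → ℝ) (hh : ∀ n, |h n| ≤ 1) (hSW : SiegelWalfisz h) (c : ℕ) (ε : ℝ) (hε : 0 < ε) (E U : ℕ) :
    ∃ x0 : ℕ, ∀ x : ℕ, x0 ≤ x → ∀ z : ℕ, Real.log x ≤ z → (z : ℝ) ≤ Real.log x ^ E → ∀ Q : ℕ → ℕ → Prop, PerB Q c →
    |∑ n ∈ (Icc 1 x).filter (fun n : ℕ => ∀ p ∈ pz z, ¬ Q p n), h n| ≤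
      ε * (((Icc 1 x).filter (fun n : ℕ => ∀ p ∈ pz z, ¬ Q p n)).card : ℝ) + x / Real.log x ^ U := by
  obtain ⟨C0, hC0, hcore⟩ := core c
  obtain ⟨b1, hb1⟩ := exists_pow_lt_of_lt_one (show (0 : ℝ) < min (ε / 4) (1 / 2) by positivity) (show (1 / 2 : ℝ) < 1 by norm_num)
  set b := max C0 b1 with hb
  have hbε : (1 / 2 : ℝ) ^ b ≤ min (ε / 4) (1 / 2) :=
    (pow_le_pow_of_le_one (by norm_num) (by norm_num) (le_max_right _ _)).trans hb1.le
  have hb2 : (1 / 2 : ℝ) ^ b ≤ ε / 4 := hbε.trans (min_le_left _ _)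
  have hb3 : (1 / 2 : ℝ) ^ b ≤ 1 / 2 := hbε.trans (min_le_right _ _)
  set k := 2 * (C0 * b) with hk
  set K0 : ℕ := ∏ p ∈ pz (C0 + c), p with hK0
  set W : ℕ := U + E * (2 * k + 1) + 1 with hW
  obtain ⟨n1, h1⟩ := hSW (E * k + 1) W
  obtain ⟨n2, h2⟩ := ev_log_le (16 * K0 + C0 + c + 3)
  obtain ⟨n3, h3⟩ := ev_pow_le W
  refine ⟨max n1 (max n2 n3), fun x hx z hz1 hz2 Q hQ => ?_⟩
  have a1 := h1 x (le_trans (le_max_left _ _) hx)
  have a2 := h2 x (le_trans (le_trans (le_max_left _ _) (le_max_right _ _)) hx)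
  have a3 := h3 x (le_trans (le_trans (le_max_right _ _) (le_max_right _ _)) hx)
  set L := Real.log x with hL
  have k0 : (0 : ℝ) ≤ K0 := Nat.cast_nonneg _
  have c0 : (0 : ℝ) ≤ C0 := Nat.cast_nonneg _
  have cc0 : (0 : ℝ) ≤ c := Nat.cast_nonneg _
  have hL1 : 1 ≤ L := by linarith
  have hL0 : 0 < L := by linarith
  have hLK : 16 * (K0 : ℝ) ≤ L := by linarith
  have hzz : C0 + c + 3 ≤ z := by
    have : ((C0 + c + 3 : ℕ) : ℝ) ≤ z := by push_cast; linarith
    exact_mod_cast this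
  have hx0 : (0 : ℝ) < x := lt_of_lt_of_le (by positivity) a3
  have hE1 : 1 ≤ (x : ℝ) / L ^ W := by rw [le_div_iff₀ (by positivity), one_mul]; exact a3
  have hzk : (z : ℝ) ^ k ≤ L ^ (E * k) := by
    rw [show L ^ (E * k) = (L ^ E) ^ k from pow_mul L E k]
    exact pow_le_pow_left₀ (Nat.cast_nonneg _) hz2 k
  have hq : ∀ q : ℕ, 1 ≤ q → q ≤ K0 * z ^ k → ∀ a : ℕ,
      |∑ n ∈ (Icc 1 x).filter (fun n => n ≡ a [MOD q]), h n| ≤ x / L ^ W := by
    intro q hq1 hq2 a
    apply a1 q hq1 _ a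
    have e1 : (q : ℝ) ≤ K0 * (z : ℝ) ^ k := by exact_mod_cast hq2
    refine e1.trans ?_
    rw [pow_succ, mul_comm (L ^ (E * k)) L]
    exact mul_le_mul (by linarith) hzk (by positivity) hL0.le
  have r1 := hcore b (le_max_left _ _) z x hzz Q hQ h (x / L ^ W) hh hq
  have r0 := hcore b (le_max_left _ _) z x hzz Q hQ (fun _ => 0) (x / L ^ W) (fun _ => by simp) (fun q _ _ a => by
    simp only [sum_const_zero, abs_zero]; positivity)
  simp only [add_zero, sum_const, nsmul_eq_mul, mul_one] at r0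
  rw [sum_add_distrib, sum_const, nsmul_eq_mul, mul_one] at r1
  generalize hS : ((((Icc 1 x).filter (fun n : ℕ => ∀ p ∈ pz z, ¬ Q p n)).card : ℕ) : ℝ) = S at *
  generalize hH : ∑ n ∈ (Icc 1 x).filter (fun n : ℕ => ∀ p ∈ pz z, ¬ Q p n), h n = H at *
  have hM0 : 0 ≤ (x : ℝ) * ∏ p ∈ pz z, (1 - (nuB Q p : ℝ) / p) := by
    apply mul_nonneg hx0.le
    apply prod_nonneg
    intro p hp
    have hp0 : (0 : ℝ) < p := by exact_mod_cast (mem_pz.1 hp).2.pos
    have h1 : (nuB Q p : ℝ) / p ≤ 1 := by rw [div_le_one hp0]; exact_mod_cast nuB_le Q p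
    linarith
  generalize (x : ℝ) * ∏ p ∈ pz z, (1 - (nuB Q p : ℝ) / p) = M at *
  have hS0 : 0 ≤ S := by rw [← hS]; positivity
  have hδ : (2 * z : ℝ) * ((z : ℝ) ^ k * ((K0 : ℝ) * (z : ℝ) ^ k * (1 + x / L ^ W))) ≤ (x / L ^ U) / 4 := by
    have e1 : (2 * z : ℝ) * ((z : ℝ) ^ k * ((K0 : ℝ) * (z : ℝ) ^ k * (1 + x / L ^ W))) =
        2 * K0 * (z : ℝ) ^ (2 * k + 1) * (1 + x / L ^ W) := by ring
    have e2 : (z : ℝ) ^ (2 * k + 1) ≤ L ^ (E * (2 * k + 1)) := by
      rw [show L ^ (E * (2 * k + 1)) = (L ^ E) ^ (2 * k + 1) from pow_mul L E _]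
      exact pow_le_pow_left₀ (Nat.cast_nonneg _) hz2 _
    rw [e1]
    calc 2 * K0 * (z : ℝ) ^ (2 * k + 1) * (1 + x / L ^ W) ≤ 2 * K0 * L ^ (E * (2 * k + 1)) * (2 * (x / L ^ W)) := by
          apply mul_le_mul _ (by linarith) (by positivity) (by positivity)
          exact mul_le_mul_of_nonneg_left e2 (by positivity)
      _ = (16 * K0) * ((x / L ^ U) / 4) / L := by
          rw [hW, pow_succ, pow_add]
          field_simp
          ring
      _ ≤ (x / L ^ U) / 4 := by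
          rw [div_le_iff₀ hL0, mul_comm ((x / L ^ U) / 4) L]
          exact mul_le_mul_of_nonneg_right hLK (by positivity)
  have hδ0 : 0 ≤ (2 * z : ℝ) * ((z : ℝ) ^ k * ((K0 : ℝ) * (z : ℝ) ^ k * (1 + x / L ^ W))) := by positivity
  generalize (2 * z : ℝ) * ((z : ℝ) ^ k * ((K0 : ℝ) * (z : ℝ) ^ k * (1 + x / L ^ W))) = δ at *
  generalize (1 / 2 : ℝ) ^ b = e at *
  have he0 : e * M ≤ (ε / 4) * M := mul_le_mul_of_nonneg_right hb2 hM0
  have he1 : e * M ≤ (1 / 2) * M := mul_le_mul_of_nonneg_right hb3 hM0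
  have hM2 : M ≤ 2 * S + 2 * δ := by
    have := (abs_le.1 r0).1
    linarith
  rcases le_or_gt ε 2 with hε2 | hε2
  · have h5 : (ε / 2) * M ≤ ε * S + 2 * δ := by
      calc (ε / 2) * M ≤ (ε / 2) * (2 * S + 2 * δ) := mul_le_mul_of_nonneg_left hM2 (by positivity)
        _ = ε * S + ε * δ := by ring
        _ ≤ ε * S + 2 * δ := by
            nlinarith
    rw [abs_le] at r0 r1 ⊢
    constructor <;> linarith [r0.1, r0.2, r1.1, r1.2]
  · have h7 : |H| ≤ S := by
      rw [← hH, ← hS]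
      refine (abs_sum_le_sum_abs _ _).trans ((sum_le_sum fun n _ => hh n).trans ?_)
      rw [sum_const, nsmul_eq_mul, mul_one]
    have h8 : 0 ≤ (x : ℝ) / L ^ U := by positivity
    nlinarith

/-- the difference of the von Mangoldt function and its model, on the integers of both signs -/
noncomputable def DD (z : ℕ) (k : ℤ) : ℝ := lamI k - lamzI z k

theorem dualL (p B C W : ℕ) : ∃ B0 : ℕ, ∀ E : ℕ, ∃ N0 : ℕ, ∀ N : ℕ, N0 ≤ N → ∀ (x : ℕ) (s : ℕ → ℤ),
    (∀ m ∈ Icc 1 x, |s m| ≤ B * N) →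
    (energy p x s : ℝ) * N ≤ Real.log N ^ C * (x : ℝ) ^ (2 * p) →
    ∀ A : ℕ, A ≤ B * N → ∀ z : ℕ, Real.log N ^ B0 ≤ z → (z : ℝ) ≤ Real.log N ^ E →
    ∀ c : ℕ → ℝ, (∀ t, |c t| ≤ 1) →
    ∑ a ∈ Icc 1 A, |∑ t ∈ Icc 1 x, c t * DD z (a + s t)| ≤ N * x / Real.log N ^ W := by
  obtain ⟨B0, h0⟩ := lam_e p B C W
  refine ⟨B0, fun E => ?_⟩
  obtain ⟨N0, h1⟩ := h0 E
  refine ⟨N0, fun N hN x s hs hE A hA z hz1 hz2 c hc => ?_⟩
  set F : ℕ → ℝ := fun a => ∑ t ∈ Icc 1 x, c t * DD z (a + s t) with hF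
  set G : ℕ → ℝ := fun a => if 0 ≤ F a then 1 else -1 with hG
  have hGF : ∀ a, |F a| = G a * F a := by
    intro a
    rw [hG]
    dsimp only
    split_ifs with h
    · rw [abs_of_nonneg h, one_mul]
    · rw [abs_of_neg (not_le.1 h)]; ring
  have hG1 : ∀ a, ‖((G a : ℝ) : ℂ)‖ ≤ 1 := by
    intro a
    rw [Complex.norm_real, hG]
    dsimp only
    split_ifs <;> simp
  have h3 := h1 N hN x s hs hE A hA z hz1 hz2 (fun a => ((G a : ℝ) : ℂ)) hG1
  have e1 : ∑ a ∈ Icc 1 A, |F a| = ∑ t ∈ Icc 1 x, c t * ∑ a ∈ Icc 1 A, G a * DD z (a + s t) := by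
    calc ∑ a ∈ Icc 1 A, |F a| = ∑ a ∈ Icc 1 A, ∑ t ∈ Icc 1 x, G a * (c t * DD z (a + s t)) := by
          refine sum_congr rfl fun a _ => ?_
          rw [hGF a, hF, mul_sum]
      _ = _ := by
          rw [sum_comm]
          refine sum_congr rfl fun t _ => ?_
          rw [mul_sum]
          refine sum_congr rfl fun a _ => ?_
          ring
  rw [e1]
  refine (le_abs_self _).trans ((abs_sum_le_sum_abs _ _).trans ?_)
  refine le_trans ?_ h3
  refine sum_le_sum fun t _ => ?_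
  rw [abs_mul]
  have e2 : ‖∑ a ∈ Icc 1 A, ((G a : ℝ) : ℂ) * ((lamI (a + s t) - lamzI z (a + s t) : ℝ) : ℂ)‖ =
      |∑ a ∈ Icc 1 A, G a * DD z (a + s t)| := by
    rw [← Real.norm_eq_abs, ← Complex.norm_real]
    congr 1
    unfold DD
    push_cast
    rfl
  rw [e2]
  exact mul_le_of_le_one_left (abs_nonneg _) (hc t)

lemma energy_affine (p x : ℕ) (s : ℕ → ℤ) (σ c : ℤ) (hσ : σ ≠ 0) :
    energy p x (fun t => σ * s t + c) = energy p x s := by
  unfold energy
  congr 1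
  apply filter_congr
  intro q _
  simp only [sum_add_distrib, ← mul_sum, add_left_inj]
  constructor
  · intro h
    exact mul_left_cancel₀ hσ h
  · intro h
    rw [h]

lemma energy_gen (f : ℤ[X]) (hd : 1 ≤ f.natDegree) : ∃ p : ℕ, ∃ C : ℝ, 0 < C ∧ ∀ x : ℕ, 1 ≤ x →
    (energy p x (fun m => f.eval (m : ℤ)) : ℝ) * (x : ℝ) ^ f.natDegree ≤ C * (x : ℝ) ^ (2 * p) := by
  rcases lt_trichotomy 0 f.leadingCoeff with h | h | h
  · exact energy_poly f hd h
  · exfalso
    have : f = 0 := leadingCoeff_eq_zero.1 h.symm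
    rw [this] at hd
    simp at hd
  · obtain ⟨p, C, hC, h1⟩ := energy_poly (-f) (by rwa [natDegree_neg]) (by rw [leadingCoeff_neg]; linarith)
    refine ⟨p, C, hC, fun x hx => ?_⟩
    have h2 := h1 x hx
    rw [natDegree_neg] at h2
    have h3 : energy p x (fun m => (-f).eval (m : ℤ)) = energy p x (fun m => f.eval (m : ℤ)) := by
      rw [← energy_affine p x (fun m => f.eval (m : ℤ)) (-1) 0 (by norm_num)]
      congr 1
      ext m
      simp
    rwa [h3] at h2

theorem oneL (f : ℤ[X]) (hf : 1 ≤ f.natDegree) (B W : ℕ) : ∃ B0 : ℕ, ∀ E : ℕ, ∃ x₀ : ℕ, ∀ x : ℕ, x₀ ≤ x →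
    ∀ z : ℕ, Real.log x ^ B0 ≤ z → (z : ℝ) ≤ Real.log x ^ E → ∀ c : ℕ → ℝ, (∀ t, |c t| ≤ 1) →
    ∑ v ∈ Icc 1 (2 * (B * x ^ f.natDegree) + 1), |∑ t ∈ Icc 1 x, c t *
      (DD z (f.eval (t : ℤ) + ((v : ℤ) - (B * x ^ f.natDegree : ℕ) - 1)) +
        DD z (-(f.eval (t : ℤ) + ((v : ℤ) - (B * x ^ f.natDegree : ℕ) - 1))))| ≤
      2 * ((x : ℝ) ^ f.natDegree * x / Real.log x ^ W) := by
  obtain ⟨p, Ce, hCe, hE⟩ := energy_gen f hf
  obtain ⟨B0, h0⟩ := dualL p (cf f + 2 * B + 1) 1 W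
  refine ⟨B0 + 1, fun E => ?_⟩
  obtain ⟨N0, h0⟩ := h0 E
  set d := f.natDegree with hd
  obtain ⟨x1, hx1⟩ := ev_log_le (max 4 (max Ce ((d : ℝ) ^ B0)))
  refine ⟨max x1 (max N0 2), fun x hx z hz1 hz2 c hc => ?_⟩
  have hxN0 : N0 ≤ x := le_trans (le_trans (le_max_left _ _) (le_max_right _ _)) hx
  have hx2 : 2 ≤ x := le_trans (le_trans (le_max_right _ _) (le_max_right _ _)) hx
  have hL := hx1 x (le_trans (le_max_left _ _) hx)
  have hL4 : 4 ≤ Real.log x := (le_max_left _ _).trans hL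
  have hLC : Ce ≤ Real.log x := ((le_max_left _ _).trans (le_max_right _ _)).trans hL
  have hLd : (d : ℝ) ^ B0 ≤ Real.log x := ((le_max_right _ _).trans (le_max_right _ _)).trans hL
  set L := Real.log x with hLdef
  set N : ℕ := x ^ d with hN
  have hxN : x ≤ N := by
    rw [hN]
    exact Nat.le_self_pow (by omega) x
  have hN1 : 1 ≤ N := by omega
  have hLN : Real.log N = d * L := by
    rw [hN]
    push_cast
    rw [Real.log_pow]
  have hd1 : (1 : ℝ) ≤ d := by exact_mod_cast hf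
  have hL0 : 0 < L := by linarith
  have hLLN : L ≤ Real.log N := by
    rw [hLN]
    nlinarith
  have hx0 : (0 : ℝ) < x := by
    have : 0 < x := by omega
    exact_mod_cast this
  have hzN1 : Real.log N ^ B0 ≤ z := by
    refine le_trans ?_ hz1
    rw [hLN, mul_pow, pow_succ, mul_comm (L ^ B0) L]
    exact mul_le_mul_of_nonneg_right hLd (by positivity)
  have hzN2 : (z : ℝ) ≤ Real.log N ^ E := hz2.trans (pow_le_pow_left₀ hL0.le hLLN E)
  set LN := Real.log N with hLNdef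
  set R : ℕ := B * N with hR
  set s : ℤ → ℕ → ℤ := fun σ t => σ * f.eval (t : ℤ) + (-(R : ℤ) - 1) with hs
  have h4 : ((N : ℕ) : ℝ) = (x : ℝ) ^ d := by rw [hN]; push_cast; ring
  have hsum : ∀ σ : ℤ, (σ = 1 ∨ σ = -1) →
      ∑ a ∈ Icc 1 (2 * R + 1), |∑ t ∈ Icc 1 x, c t * DD z (a + s σ t)| ≤ (x : ℝ) ^ d * x / L ^ W := by
    intro σ hσ
    have hσ0 : σ ≠ 0 := by rcases hσ with h | h <;> rw [h] <;> norm_num
    have hσ1 : |σ| = 1 := by rcases hσ with h | h <;> rw [h] <;> norm_num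
    have h3 := h0 N (hxN0.trans hxN) x (s σ) (by
      intro m hm
      rw [mem_Icc] at hm
      have h2 : |σ * f.eval (m : ℤ)| ≤ (cf f : ℤ) * N := by
        rw [abs_mul, hσ1, one_mul]
        refine (abs_eval_le f m hm.1).trans ?_
        have h3 : m ^ d ≤ N := by rw [hN]; exact Nat.pow_le_pow_left hm.2 _
        have h4 : (m : ℤ) ^ d ≤ (N : ℤ) := by exact_mod_cast h3
        exact mul_le_mul_of_nonneg_left h4 (by positivity)
      have h5 : |(-(R : ℤ) - 1)| = R + 1 := by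
        rw [show (-(R : ℤ) - 1) = -((R : ℤ) + 1) by ring, abs_neg, abs_of_nonneg (by positivity)]
      have h6 : (R : ℤ) = B * N := by rw [hR]; push_cast; ring
      have h7 : (1 : ℤ) ≤ N := by exact_mod_cast hN1
      calc |s σ m| ≤ |σ * f.eval (m : ℤ)| + |(-(R : ℤ) - 1)| := abs_add_le _ _
        _ ≤ (cf f : ℤ) * N + (B * N + 1) := by rw [h5, h6]; linarith
        _ ≤ ((cf f + 2 * B + 1 : ℕ) : ℤ) * N := by
            push_cast
            have h8 : (0 : ℤ) ≤ (B : ℤ) * N := by positivity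
            nlinarith) (by
      have h2 : energy p x (s σ) = energy p x (fun m => f.eval (m : ℤ)) := by
        rw [hs]
        exact energy_affine p x (fun m => f.eval (m : ℤ)) σ _ hσ0
      rw [h2, ← hLNdef, pow_one, h4]
      refine (hE x (by omega)).trans ?_
      exact mul_le_mul_of_nonneg_right (hLC.trans hLLN) (by positivity)) (2 * R + 1) (by
      rw [hR]
      nlinarith [Nat.zero_le (cf f * N)]) z hzN1 hzN2 c hc
    have h9 : (N * x / LN ^ W : ℝ) ≤ N * x / L ^ W := by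
      apply div_le_div_of_nonneg_left (by positivity) (by positivity)
      exact pow_le_pow_left₀ hL0.le hLLN _
    rw [← h4]
    exact h3.trans h9
  have e1 : ∀ v ∈ Icc 1 (2 * R + 1), |∑ t ∈ Icc 1 x, c t *
      (DD z (f.eval (t : ℤ) + ((v : ℤ) - (R : ℕ) - 1)) + DD z (-(f.eval (t : ℤ) + ((v : ℤ) - (R : ℕ) - 1))))| ≤
      |∑ t ∈ Icc 1 x, c t * DD z (v + s 1 t)| + |∑ t ∈ Icc 1 x, c t * DD z (((2 * R + 1 + 1 - v : ℕ) : ℤ) + s (-1) t)| := by
    intro v hv
    rw [mem_Icc] at hv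
    refine le_trans (le_of_eq ?_) (abs_add_le _ _)
    rw [← sum_add_distrib]
    congr 1
    apply sum_congr rfl
    intro t _
    rw [← mul_add]
    congr 2
    · congr 1
      rw [hs]
      dsimp only
      ring
    · congr 1
      rw [hs]
      dsimp only
      rw [Nat.cast_sub (by omega)]
      push_cast
      ring
  refine (sum_le_sum e1).trans ?_
  rw [sum_add_distrib]
  have e2 : ∑ v ∈ Icc 1 (2 * R + 1), |∑ t ∈ Icc 1 x, c t * DD z (((2 * R + 1 + 1 - v : ℕ) : ℤ) + s (-1) t)| =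
      ∑ v ∈ Icc 1 (2 * R + 1), |∑ t ∈ Icc 1 x, c t * DD z ((v : ℤ) + s (-1) t)| := by
    apply sum_nbij' (fun v => 2 * R + 1 + 1 - v) (fun v => 2 * R + 1 + 1 - v)
    · intro v hv
      rw [mem_Icc] at hv ⊢
      omega
    · intro v hv
      rw [mem_Icc] at hv ⊢
      omega
    · intro v hv
      rw [mem_Icc] at hv
      omega
    · intro v hv
      rw [mem_Icc] at hv
      omega
    · intro v hv
      rfl
  rw [e2]
  have := hsum 1 (Or.inl rfl)
  have := hsum (-1) (Or.inr rfl)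
  linarith

lemma roots_lc (P : ℤ[X]) (p : ℕ) (hp : p.Prime) (h : ¬ (p : ℤ) ∣ P.leadingCoeff) :
    ((range p).filter (fun r : ℕ => (p : ℤ) ∣ P.eval (r : ℤ))).card ≤ P.natDegree := by
  classical
  have := Fact.mk hp
  set Q : (ZMod p)[X] := P.map (Int.castRingHom (ZMod p)) with hQ
  have hev : ∀ m : ℤ, eval (m : ZMod p) Q = ((P.eval m : ℤ) : ZMod p) := by
    intro m
    rw [hQ]
    simp
  have hQ0 : Q ≠ 0 := by
    intro h0
    apply h
    have h1 : Q.coeff P.natDegree = ((P.leadingCoeff : ℤ) : ZMod p) := by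
      rw [hQ, coeff_map]
      rfl
    rw [h0, coeff_zero] at h1
    exact (ZMod.intCast_zmod_eq_zero_iff_dvd _ _).1 h1.symm
  have h1 : ((range p).filter (fun r : ℕ => (p : ℤ) ∣ P.eval (r : ℤ))).card ≤ Q.roots.toFinset.card := by
    apply card_le_card_of_injOn (fun r : ℕ => (r : ZMod p))
    · intro r hr
      rw [mem_coe, mem_filter] at hr
      rw [mem_coe, Multiset.mem_toFinset, mem_roots hQ0, IsRoot.def]
      have h2 := hev (r : ℤ)
      rw [Int.cast_natCast] at h2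
      rw [h2]
      exact (ZMod.intCast_zmod_eq_zero_iff_dvd _ _).2 hr.2
    · intro r hr s hs hrs
      rw [mem_coe, mem_filter, mem_range] at hr hs
      have := (ZMod.natCast_eq_natCast_iff' r s p).1 hrs
      rwa [Nat.mod_eq_of_lt hr.1, Nat.mod_eq_of_lt hs.1] at this
  refine h1.trans ((Multiset.toFinset_card_le _).trans ((card_roots' Q).trans ?_))
  exact natDegree_map_le

lemma perB {k : ℕ} (f : Fin k → ℤ[X]) (hf : ∀ i, 1 ≤ (f i).natDegree) (m : Fin k → ℤ) :
    PerB (fun p n => ∃ i, (p : ℤ) ∣ (f i).eval (n : ℤ) + m i)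
      (∑ i, ((f i).natDegree + (f i).leadingCoeff.natAbs)) := by
  classical
  constructor
  · intro p n
    have h1 : (p : ℤ) ∣ (n : ℤ) - ((n % p : ℕ) : ℤ) := by
      rw [Int.natCast_mod]
      exact Int.dvd_self_sub_emod
    have h2 : ∀ i, (p : ℤ) ∣ (f i).eval (n : ℤ) - (f i).eval ((n % p : ℕ) : ℤ) :=
      fun i => h1.trans (sub_dvd_eval_sub _ _ (f i))
    constructor
    · rintro ⟨i, h⟩
      refine ⟨i, ?_⟩
      have := dvd_sub h (h2 i)
      ring_nf at this ⊢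
      exact this
    · rintro ⟨i, h⟩
      refine ⟨i, ?_⟩
      have := dvd_add h (h2 i)
      ring_nf at this ⊢
      exact this
  · intro p hp
    by_cases hpc : p ≤ ∑ i, ((f i).natDegree + (f i).leadingCoeff.natAbs)
    · exact (nuB_le _ p).trans hpc
    · have h1 : ∀ i, ((range p).filter (fun r : ℕ => (p : ℤ) ∣ (f i).eval (r : ℤ) + m i)).card ≤ (f i).natDegree := by
        intro i
        have hlc : (f i).leadingCoeff ≠ 0 := by
          intro h0
          have := hf i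
          rw [leadingCoeff_eq_zero.1 h0] at this
          simp at this
        have hdeg : (f i + C (m i)).natDegree = (f i).natDegree := natDegree_add_C
        have hlc2 : (f i + C (m i)).leadingCoeff = (f i).leadingCoeff := by
          unfold leadingCoeff
          rw [hdeg, coeff_add, coeff_C_of_ne_zero (by have := hf i; omega), add_zero]
        have h3 := roots_lc (f i + C (m i)) p hp (by
          rw [hlc2]
          intro hdv
          have h4 := Int.natAbs_dvd_natAbs.2 hdv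
          rw [Int.natAbs_natCast] at h4
          have h5 := Nat.le_of_dvd (Int.natAbs_pos.2 hlc) h4
          have h6 : (f i).natDegree + (f i).leadingCoeff.natAbs ≤ ∑ i, ((f i).natDegree + (f i).leadingCoeff.natAbs) :=
            single_le_sum (f := fun i => (f i).natDegree + (f i).leadingCoeff.natAbs) (fun _ _ => Nat.zero_le _) (mem_univ i)
          omega)
        rw [hdeg] at h3
        refine le_trans (le_of_eq ?_) h3
        congr 1
        ext r
        simp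
      have h2 : nuB (fun p n => ∃ i, (p : ℤ) ∣ (f i).eval (n : ℤ) + m i) p ≤
          (univ.biUnion (fun i => (range p).filter (fun r : ℕ => (p : ℤ) ∣ (f i).eval (r : ℤ) + m i))).card := by
        have e : nuB (fun p n => ∃ i, (p : ℤ) ∣ (f i).eval (n : ℤ) + m i) p =
            ((range p).filter (fun r : ℕ => ∃ i, (p : ℤ) ∣ (f i).eval (r : ℤ) + m i)).card := by
          unfold nuB
          congr
        rw [e]
        apply card_le_card
        intro r hr
        rw [mem_filter] at hr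
        obtain ⟨hr1, i, hi⟩ := hr
        rw [mem_biUnion]
        exact ⟨i, mem_univ _, mem_filter.2 ⟨hr1, hi⟩⟩
      refine h2.trans (card_biUnion_le.trans (sum_le_sum fun i _ => (h1 i).trans (Nat.le_add_right _ _)))

lemma lamI_both (k : ℤ) : lamI k + lamI (-k) = ArithmeticFunction.vonMangoldt k.natAbs := by
  unfold lamI
  rcases lt_trichotomy k 0 with h | h | h
  · rw [if_neg (by omega), if_pos (by omega), zero_add]
    congr 1
    omega
  · subst h
    simp
  · rw [if_pos (by omega), if_neg (by omega), add_zero]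
    congr 1
    omega

open Classical in
lemma lamzI_both (z : ℕ) (hz : 2 ≤ z) (k : ℤ) :
    lamzI z k + lamzI z (-k) = if ∀ p ∈ pz z, ¬ (p : ℤ) ∣ k then (Vz z)⁻¹ else 0 := by
  have key : ∀ (j : ℤ), 1 ≤ j → lamz z j.toNat = if ∀ p ∈ pz z, ¬ (p : ℤ) ∣ j then (Vz z)⁻¹ else 0 := by
    intro j hj
    unfold lamz
    have e : ∀ p : ℕ, p ∣ j.toNat ↔ (p : ℤ) ∣ j := by
      intro p
      rw [← Int.natCast_dvd_natCast]
      rw [Int.toNat_of_nonneg (by omega)]
    simp only [e]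
  unfold lamzI
  rcases lt_trichotomy k 0 with h | h | h
  · rw [if_neg (by omega), if_pos (by omega), zero_add, key (-k) (by omega)]
    simp only [dvd_neg]
  · subst h
    rw [if_neg (by omega), if_neg (by omega), if_neg]
    · simp
    · push Not
      exact ⟨2, mem_pz.2 ⟨hz, Nat.prime_two⟩, dvd_zero _⟩
  · rw [if_pos (by omega), if_neg (by omega), add_zero, key k (by omega)]

/-- `∑_{1 ≤ n ≤ x} h(n) Λ(|f 1 (n) + m 1|) ... Λ(|f k (n) + m k|)`, `Λ` the von Mangoldt function, `Λ(0) = 0` -/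
noncomputable def T {k : ℕ} (h : ℕ → ℝ) (f : Fin k → ℤ[X]) (m : Fin k → ℤ) (x : ℕ) : ℝ :=
  ∑ n ∈ Icc 1 x, h n * ∏ i, ArithmeticFunction.vonMangoldt ((f i).eval (n : ℤ) + m i).natAbs

open Classical in
/-- the number of integer vectors `m` with `|m i| ≤ B x ^ (deg (f i))` for all `i` for which
`|T h f m x| ≤ ε T 1 f m x + x / (log x) ^ U` fails -/
noncomputable def exceptions {k : ℕ} (h : ℕ → ℝ) (f : Fin k → ℤ[X]) (ε : ℝ) (B U x : ℕ) : ℕ :=
  ((Fintype.piFinset fun i => Icc (-(B * x ^ (f i).natDegree : ℤ)) (B * x ^ (f i).natDegree : ℤ)).filter (fun m =>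
    ε * T (fun _ => 1) f m x + x / Real.log x ^ U < |T h f m x|)).card

open Classical in
/-- the model is close, for almost all vectors -/
theorem fewK {k : ℕ} (f : Fin k → ℤ[X]) (hf : ∀ i, 1 ≤ (f i).natDegree) (B U : ℕ) (hB : 1 ≤ B) : ∃ B0 : ℕ, ∀ E : ℕ,
    ∃ x₀ : ℕ, ∀ x : ℕ, x₀ ≤ x → ∀ z : ℕ, 2 ≤ z → Real.log x ^ B0 ≤ z → (z : ℝ) ≤ Real.log x ^ E →
    ∀ c : ℕ → ℝ, (∀ t, |c t| ≤ 1) →
    (((Fintype.piFinset fun i => Icc (-(B * x ^ (f i).natDegree : ℤ)) (B * x ^ (f i).natDegree : ℤ)).filter (fun m =>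
      (x : ℝ) / Real.log x ^ U <
        |T c f m x - ∑ n ∈ Icc 1 x, c n * ∏ i, (lamzI z ((f i).eval (n : ℤ) + m i) + lamzI z (-((f i).eval (n : ℤ) + m i)))|)).card : ℝ) ≤
      x ^ (∑ i, (f i).natDegree) / Real.log x ^ U := by
  have hone := fun i => oneL (f i) (hf i) B (2 * k + 2 * U + 1)
  choose B0 hone using hone
  refine ⟨∑ i, B0 i, fun E => ?_⟩
  choose x0 hone using fun i => hone i E
  obtain ⟨n1, h1⟩ := ev_log_le (1 + 2 * k * (3 * B : ℝ) ^ k + ∑ i, ((f i).natDegree + Real.log (cf (f i) + B)))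
  obtain ⟨n2, h2⟩ := Vz_inv_small E
  refine ⟨(∑ i, x0 i) + n1 + n2 + 2, fun x hx z hz2 hz1 hzE c hc => ?_⟩
  have a1 := h1 x (by omega)
  have a2 := h2 x (by omega) z (by omega) hzE
  set L := Real.log x with hL
  have hlogn : ∀ i, 0 ≤ Real.log (cf (f i) + B : ℝ) := by
    intro i
    apply Real.log_nonneg
    have : (1 : ℝ) ≤ B := by exact_mod_cast hB
    have : (0 : ℝ) ≤ cf (f i) := Nat.cast_nonneg _
    linarith
  have hsn : 0 ≤ ∑ i, (((f i).natDegree : ℝ) + Real.log (cf (f i) + B)) :=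
    sum_nonneg fun i _ => by have := hlogn i; positivity
  have hkn : 0 ≤ 2 * k * (3 * B : ℝ) ^ k := by positivity
  have hL1 : 1 ≤ L := by linarith
  have hL0 : 0 < L := by linarith
  have hx2 : 2 ≤ x := by omega
  have hx0 : (0 : ℝ) < x := by
    have : 0 < x := by omega
    exact_mod_cast this
  have hV0 : 0 ≤ (Vz z)⁻¹ := by
    apply inv_nonneg.2
    unfold Vz
    apply prod_nonneg
    intro p hp
    have hp1 : (1 : ℝ) ≤ p := by exact_mod_cast (mem_pz.1 hp).2.one_lt.le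
    have : 1 / (p : ℝ) ≤ 1 := by rw [div_le_one (by linarith)]; exact hp1
    linarith
  set A : Fin k → ℕ := fun i => 2 * (B * x ^ (f i).natDegree) + 1 with hA
  set sh : Fin k → ℕ → ℤ := fun i v => (v : ℤ) - (B * x ^ (f i).natDegree : ℕ) - 1 with hsh
  set P : Fin k → ℕ → ℕ → ℝ := fun i n v => ArithmeticFunction.vonMangoldt ((f i).eval (n : ℤ) + sh i v).natAbs with hP
  set Q : Fin k → ℕ → ℕ → ℝ := fun i n v => lamzI z ((f i).eval (n : ℤ) + sh i v) + lamzI z (-((f i).eval (n : ℤ) + sh i v)) with hQ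
  have hPQ : ∀ i n v, P i n v - Q i n v = DD z ((f i).eval (n : ℤ) + sh i v) + DD z (-((f i).eval (n : ℤ) + sh i v)) := by
    intro i n v
    rw [hP, hQ]
    dsimp only
    rw [← lamI_both]
    unfold DD
    ring
  have hPb : ∀ i, ∀ n ∈ Icc 1 x, ∀ v ∈ Icc 1 (A i), |P i n v| ≤ L ^ 2 := by
    intro i n hn v hv
    rw [mem_Icc] at hn hv
    rw [hP]
    dsimp only
    rw [abs_of_nonneg ArithmeticFunction.vonMangoldt_nonneg]
    refine ArithmeticFunction.vonMangoldt_le_log.trans ?_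
    rcases Nat.eq_zero_or_pos ((f i).eval (n : ℤ) + sh i v).natAbs with h0 | h0
    · rw [h0]
      simp only [Nat.cast_zero, Real.log_zero]
      positivity
    · have g1 : |(f i).eval (n : ℤ) + sh i v| ≤ (cf (f i) + B : ℤ) * (x : ℤ) ^ (f i).natDegree := by
        have g2 := abs_eval_le (f i) n hn.1
        have g3 : (n : ℤ) ^ (f i).natDegree ≤ (x : ℤ) ^ (f i).natDegree := by
          have : n ^ (f i).natDegree ≤ x ^ (f i).natDegree := Nat.pow_le_pow_left hn.2 _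
          exact_mod_cast this
        have g4 : (cf (f i) : ℤ) * (n : ℤ) ^ (f i).natDegree ≤ (cf (f i) : ℤ) * (x : ℤ) ^ (f i).natDegree :=
          mul_le_mul_of_nonneg_left g3 (by positivity)
        have g5 : |sh i v| ≤ B * (x : ℤ) ^ (f i).natDegree := by
          rw [hsh]
          dsimp only
          have hv2 : v ≤ 2 * (B * x ^ (f i).natDegree) + 1 := hv.2
          have e : (((B * x ^ (f i).natDegree : ℕ)) : ℤ) = B * (x : ℤ) ^ (f i).natDegree := by push_cast; ring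
          rw [← e, abs_le]
          constructor <;> omega
        have g6 := abs_add_le ((f i).eval (n : ℤ)) (sh i v)
        have : (cf (f i) + B : ℤ) * (x : ℤ) ^ (f i).natDegree = (cf (f i) : ℤ) * (x : ℤ) ^ (f i).natDegree + B * (x : ℤ) ^ (f i).natDegree := by ring
        linarith
      have g2 : ((((f i).eval (n : ℤ) + sh i v).natAbs : ℕ) : ℝ) ≤ (cf (f i) + B : ℝ) * (x : ℝ) ^ (f i).natDegree := by
        have e : ((((f i).eval (n : ℤ) + sh i v).natAbs : ℕ) : ℝ) = ((|(f i).eval (n : ℤ) + sh i v| : ℤ) : ℝ) := by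
          rw [Nat.cast_natAbs]
        rw [e]
        exact_mod_cast g1
      have hcB : (0 : ℝ) < cf (f i) + B := by
        have : (1 : ℝ) ≤ B := by exact_mod_cast hB
        have : (0 : ℝ) ≤ cf (f i) := Nat.cast_nonneg _
        linarith
      have g3 : Real.log (((f i).eval (n : ℤ) + sh i v).natAbs : ℕ) ≤ Real.log ((cf (f i) + B : ℝ) * (x : ℝ) ^ (f i).natDegree) :=
        Real.log_le_log (by exact_mod_cast h0) g2
      rw [Real.log_mul hcB.ne' (by positivity), Real.log_pow] at g3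
      have g4 : ((f i).natDegree : ℝ) + Real.log (cf (f i) + B) ≤ ∑ i, (((f i).natDegree : ℝ) + Real.log (cf (f i) + B)) :=
        single_le_sum (f := fun i => ((f i).natDegree : ℝ) + Real.log (cf (f i) + B)) (fun i _ => by have := hlogn i; positivity) (mem_univ i)
      have g5 : ((f i).natDegree : ℝ) + Real.log (cf (f i) + B) ≤ L := by linarith
      have g6 := hlogn i
      have g7 : Real.log (cf (f i) + B : ℝ) ≤ Real.log (cf (f i) + B : ℝ) * L := le_mul_of_one_le_right g6 hL1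
      nlinarith
  have hQb : ∀ i, ∀ n ∈ Icc 1 x, ∀ v ∈ Icc 1 (A i), |Q i n v| ≤ L ^ 2 := by
    intro i n _ v _
    rw [hQ]
    dsimp only
    rw [lamzI_both z hz2]
    have : L ≤ L ^ 2 := le_self_pow₀ hL1 (by norm_num)
    split_ifs
    · rw [abs_of_nonneg hV0]
      linarith
    · rw [abs_zero]
      positivity
  set δ : ℝ := 2 * (x / L ^ (2 * k + 2 * U + 1)) with hδ
  have hδ0 : 0 ≤ δ := by positivity
  have htele := tele x A (fun i => by rw [hA]; dsimp only; omega) P Q (L ^ 2) δ (one_le_pow₀ hL1) hδ0 hPb hQb (by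
    intro i K hK G hG
    have hB0 : L ^ (B0 i) ≤ z := by
      refine le_trans (pow_le_pow_right₀ hL1 ?_) hz1
      exact single_le_sum (f := B0) (fun _ _ => Nat.zero_le _) (mem_univ i)
    have hxi : x0 i ≤ x := by
      have := single_le_sum (f := x0) (fun _ _ => Nat.zero_le _) (mem_univ i)
      omega
    have g1 := hone i x hxi z hB0 hzE (fun n => if n ∈ Icc 1 x then G n / K else 0) (by
      intro t
      split_ifs with ht
      · rw [abs_div, abs_of_pos hK, div_le_one hK]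
        exact hG t ht
      · simp)
    have g2 : ∑ v ∈ Icc 1 (A i), |∑ n ∈ Icc 1 x, G n * (P i n v - Q i n v)| =
        K * ∑ v ∈ Icc 1 (2 * (B * x ^ (f i).natDegree) + 1), |∑ t ∈ Icc 1 x, (if t ∈ Icc 1 x then G t / K else 0) *
      (DD z ((f i).eval (t : ℤ) + ((v : ℤ) - (B * x ^ (f i).natDegree : ℕ) - 1)) +
        DD z (-((f i).eval (t : ℤ) + ((v : ℤ) - (B * x ^ (f i).natDegree : ℕ) - 1))))| := by
      rw [mul_sum]
      apply sum_congr rfl
      intro v _
      rw [← abs_of_pos hK, ← abs_mul, abs_of_pos hK, mul_sum]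
      congr 1
      apply sum_congr rfl
      intro n hn
      rw [if_pos hn, hPQ]
      field_simp
      rfl
    rw [g2]
    apply mul_le_mul_of_nonneg_left _ hK.le
    refine g1.trans ?_
    have g3 : (x : ℝ) ^ (f i).natDegree ≤ A i := by
      rw [hA]
      dsimp only
      have : x ^ (f i).natDegree ≤ 2 * (B * x ^ (f i).natDegree) + 1 := by nlinarith [Nat.zero_le (x ^ (f i).natDegree)]
      exact_mod_cast this
    have g4 : 0 ≤ (x : ℝ) / L ^ (2 * k + 2 * U + 1) := by positivity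
    rw [hδ]
    have e : 2 * ((x : ℝ) ^ (f i).natDegree * x / L ^ (2 * k + 2 * U + 1)) =
        2 * (x / L ^ (2 * k + 2 * U + 1)) * (x : ℝ) ^ (f i).natDegree := by ring
    rw [e]
    exact mul_le_mul_of_nonneg_left g3 (by positivity)) univ 1 one_pos (fun n _ => c n) (fun n _ m _ => hc n)
    (fun _ _ _ _ _ => rfl)
  -- the exceptional vectors
  set bad : Finset (Fin k → ℕ) := (Fintype.piFinset fun i => Icc 1 (A i)).filter (fun v =>
    (x : ℝ) / L ^ U < |∑ n ∈ Icc 1 x, c n * (∏ i, P i n (v i) - ∏ i, Q i n (v i))|) with hbad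
  have hsub : (Fintype.piFinset fun i => Icc (-(B * x ^ (f i).natDegree : ℤ)) (B * x ^ (f i).natDegree : ℤ)).filter (fun m =>
      (x : ℝ) / L ^ U <
        |T c f m x - ∑ n ∈ Icc 1 x, c n * ∏ i, (lamzI z ((f i).eval (n : ℤ) + m i) + lamzI z (-((f i).eval (n : ℤ) + m i)))|) ⊆
      bad.image (fun v i => sh i (v i)) := by
    intro m hm
    rw [mem_filter, Fintype.mem_piFinset] at hm
    rw [mem_image]
    have hmi : ∀ i, sh i ((m i + (B * x ^ (f i).natDegree : ℕ) + 1).toNat) = m i := by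
      intro i
      have := mem_Icc.1 (hm.1 i)
      rw [hsh]
      dsimp only
      have e : (((B * x ^ (f i).natDegree : ℕ)) : ℤ) = B * (x : ℤ) ^ (f i).natDegree := by push_cast; ring
      rw [Int.toNat_of_nonneg (by rw [e]; linarith [this.1])]
      ring
    refine ⟨fun i => (m i + (B * x ^ (f i).natDegree : ℕ) + 1).toNat, ?_, funext hmi⟩
    rw [hbad, mem_filter, Fintype.mem_piFinset]
    constructor
    · intro i
      have := mem_Icc.1 (hm.1 i)
      have e : (((B * x ^ (f i).natDegree : ℕ)) : ℤ) = B * (x : ℤ) ^ (f i).natDegree := by push_cast; ring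
      rw [← e] at this
      rw [mem_Icc, hA]
      dsimp only
      omega
    · refine lt_of_lt_of_eq hm.2 ?_
      congr 1
      unfold T
      rw [← sum_sub_distrib]
      apply sum_congr rfl
      intro n _
      rw [hP, hQ]
      dsimp only
      simp only [hmi]
      ring
  have hAp : (∏ i, (A i : ℝ)) ≤ (3 * B : ℝ) ^ k * (x : ℝ) ^ (∑ i, (f i).natDegree) := by
    have e : (3 * B : ℝ) ^ k * (x : ℝ) ^ (∑ i, (f i).natDegree) = ∏ i, ((3 * B : ℝ) * (x : ℝ) ^ (f i).natDegree) := by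
      rw [prod_mul_distrib, prod_const, card_univ, Fintype.card_fin, prod_pow_eq_pow_sum]
    rw [e]
    apply prod_le_prod (fun _ _ => Nat.cast_nonneg _)
    intro i _
    rw [hA]
    dsimp only
    have : 1 ≤ B * x ^ (f i).natDegree := Nat.mul_pos hB (Nat.pow_pos (by omega))
    have h5 : 2 * (B * x ^ (f i).natDegree) + 1 ≤ 3 * (B * x ^ (f i).natDegree) := by omega
    have h6 : ((2 * (B * x ^ (f i).natDegree) + 1 : ℕ) : ℝ) ≤ ((3 * (B * x ^ (f i).natDegree) : ℕ) : ℝ) := by exact_mod_cast h5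
    refine h6.trans (le_of_eq ?_)
    push_cast
    ring
  have hb : (bad.card : ℝ) * ((x : ℝ) / L ^ U) ≤
      k * (1 * (L ^ 2) ^ k * δ) * ((3 * B : ℝ) ^ k * (x : ℝ) ^ (∑ i, (f i).natDegree)) := by
    have h5 : (bad.card : ℝ) * ((x : ℝ) / L ^ U) ≤
        ∑ v ∈ Fintype.piFinset (fun i => Icc 1 (A i)), |∑ n ∈ Icc 1 x, c n * (∏ i, P i n (v i) - ∏ i, Q i n (v i))| := by
      calc (bad.card : ℝ) * ((x : ℝ) / L ^ U) = ∑ _v ∈ bad, (x : ℝ) / L ^ U := by rw [sum_const, nsmul_eq_mul]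
        _ ≤ ∑ v ∈ bad, |∑ n ∈ Icc 1 x, c n * (∏ i, P i n (v i) - ∏ i, Q i n (v i))| :=
            sum_le_sum fun v hv => (mem_filter.1 hv).2.le
        _ ≤ _ := sum_le_sum_of_subset_of_nonneg (filter_subset _ _) fun _ _ _ => abs_nonneg _
    rw [card_univ, Fintype.card_fin] at htele
    refine h5.trans (htele.trans ?_)
    exact mul_le_mul_of_nonneg_left hAp (by positivity)
  have hb2 : (bad.card : ℝ) ≤ (x : ℝ) ^ (∑ i, (f i).natDegree) / L ^ U := by
    have e1 : k * (1 * (L ^ 2) ^ k * δ) * ((3 * B : ℝ) ^ k * (x : ℝ) ^ (∑ i, (f i).natDegree)) =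
        (2 * k * (3 * B : ℝ) ^ k / L) * ((x : ℝ) ^ (∑ i, (f i).natDegree) / L ^ U) * ((x : ℝ) / L ^ U) := by
      have e2 : L ^ (2 * k + 2 * U + 1) = (L ^ 2) ^ k * L ^ U * L ^ U * L := by
        rw [← pow_mul, ← pow_add, ← pow_add, ← pow_succ]
        congr 1
        ring
      rw [hδ, e2]
      field_simp
    rw [e1] at hb
    have h6 := le_of_mul_le_mul_right hb (by positivity)
    refine h6.trans ?_
    have h7 : 2 * k * (3 * B : ℝ) ^ k / L ≤ 1 := by rw [div_le_one hL0]; linarith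
    exact mul_le_of_le_one_left (by positivity) h7
  refine le_trans ?_ hb2
  exact_mod_cast (card_le_card hsub).trans card_image_le

theorem main {k : ℕ} (f : Fin k → ℤ[X]) (hf : ∀ i, 1 ≤ (f i).natDegree) (B U : ℕ) (hB : 1 ≤ B) (ε : ℝ) (hε : 0 < ε)
    (h : ℕ → ℝ) (hh : ∀ n, |h n| ≤ 1) (hSW : SiegelWalfisz h) :
    ∃ x₀ : ℕ, ∀ x : ℕ, x₀ ≤ x →
      (exceptions h f ε B U x : ℝ) ≤ x ^ (∑ i, (f i).natDegree) / Real.log x ^ U := by
  classical
  obtain ⟨B0, hfew⟩ := fewK f hf B (U + 1) hB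
  obtain ⟨n1, h1⟩ := hfew (B0 + 2)
  obtain ⟨n2, h2⟩ := h_fund h hh hSW (∑ i, ((f i).natDegree + (f i).leadingCoeff.natAbs)) ε hε (B0 + 2) (U + 1 + k)
  obtain ⟨n3, h3⟩ := Vz_inv_small (B0 + 2)
  obtain ⟨n4, h4⟩ := ev_log_le (2 + ε)
  refine ⟨max (max n1 n2) (max n3 (max n4 2)), fun x hx => ?_⟩
  have a1 := h1 x (le_trans (le_trans (le_max_left _ _) (le_max_left _ _)) hx)
  have a2 := h2 x (le_trans (le_trans (le_max_right _ _) (le_max_left _ _)) hx)
  have a3 := h3 x (le_trans (le_trans (le_max_left _ _) (le_max_right _ _)) hx)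
  have a4 := h4 x (le_trans (le_trans (le_trans (le_max_left _ _) (le_max_right _ _)) (le_max_right _ _)) hx)
  have a5 : 2 ≤ x := le_trans (le_trans (le_trans (le_max_right _ _) (le_max_right _ _)) (le_max_right _ _)) hx
  set L := Real.log x with hL
  have hL2 : 2 ≤ L := by linarith
  have hL0 : 0 < L := by linarith
  have hL1 : 1 ≤ L := by linarith
  have hx0 : (0 : ℝ) < x := by
    have : 0 < x := by omega
    exact_mod_cast this
  set z : ℕ := ⌈L ^ (B0 + 1)⌉₊ with hz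
  have z1 : L ^ (B0 + 1) ≤ z := Nat.le_ceil _
  have z2 : (z : ℝ) ≤ L ^ (B0 + 2) := by
    have e1 : (z : ℝ) ≤ L ^ (B0 + 1) + 1 := (Nat.ceil_lt_add_one (by positivity)).le
    have e2 : 1 ≤ L ^ (B0 + 1) := one_le_pow₀ hL1
    have e3 : L ^ (B0 + 2) = L ^ (B0 + 1) * L := pow_succ _ _
    rw [e3]
    nlinarith
  have z3 : L ≤ z := le_trans (le_self_pow₀ hL1 (by omega)) z1
  have z4 : L ^ B0 ≤ z := le_trans (pow_le_pow_right₀ hL1 (by omega)) z1
  have z5 : 2 ≤ z := by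
    have : (2 : ℝ) ≤ z := hL2.trans z3
    exact_mod_cast this
  have hV := a3 z (by omega) z2
  have hV0 : 0 ≤ (Vz z)⁻¹ := by
    apply inv_nonneg.2
    unfold Vz
    apply prod_nonneg
    intro p hp
    have hp1 : (1 : ℝ) ≤ p := by exact_mod_cast (mem_pz.1 hp).2.one_lt.le
    have : 1 / (p : ℝ) ≤ 1 := by rw [div_le_one (by linarith)]; exact hp1
    linarith
  have b1 := a1 z z5 z4 z2 h hh
  have b2 := a1 z z5 z4 z2 (fun _ => 1) (fun _ => by simp)
  -- the model
  have hmod : ∀ (c : ℕ → ℝ) (m : Fin k → ℤ),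
      ∑ n ∈ Icc 1 x, c n * ∏ i, (lamzI z ((f i).eval (n : ℤ) + m i) + lamzI z (-((f i).eval (n : ℤ) + m i))) =
      (Vz z)⁻¹ ^ k * ∑ n ∈ (Icc 1 x).filter (fun n : ℕ => ∀ p ∈ pz z, ¬ ∃ i, (p : ℤ) ∣ (f i).eval (n : ℤ) + m i), c n := by
    intro c m
    rw [mul_sum, sum_filter]
    apply sum_congr rfl
    intro n _
    simp only [lamzI_both z z5]
    split_ifs with hn
    · have : ∀ i, ∀ p ∈ pz z, ¬ (p : ℤ) ∣ (f i).eval (n : ℤ) + m i := fun i p hp hd => hn p hp ⟨i, hd⟩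
      rw [prod_congr rfl (fun i _ => if_pos (this i)), prod_const, card_univ, Fintype.card_fin]
      ring
    · push Not at hn
      obtain ⟨p, hp, i, hd⟩ := hn
      have h0 : (if ∀ p ∈ pz z, ¬ (p : ℤ) ∣ (f i).eval (n : ℤ) + m i then (Vz z)⁻¹ else 0) = 0 :=
        if_neg (fun hcon => hcon p hp hd)
      rw [prod_eq_zero (mem_univ i) h0, mul_zero]
  simp only [hmod] at b1 b2
  have hVk0 : 0 ≤ (Vz z)⁻¹ ^ k := pow_nonneg hV0 k
  have hVk : (Vz z)⁻¹ ^ k ≤ L ^ k := pow_le_pow_left₀ hV0 hV k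
  have hsub : (Fintype.piFinset fun i => Icc (-(B * x ^ (f i).natDegree : ℤ)) (B * x ^ (f i).natDegree : ℤ)).filter (fun m =>
      ε * T (fun _ => 1) f m x + x / L ^ U < |T h f m x|) ⊆
      (Fintype.piFinset fun i => Icc (-(B * x ^ (f i).natDegree : ℤ)) (B * x ^ (f i).natDegree : ℤ)).filter (fun m => (x : ℝ) / L ^ (U + 1) <
        |T h f m x - (Vz z)⁻¹ ^ k * ∑ n ∈ (Icc 1 x).filter (fun n : ℕ => ∀ p ∈ pz z, ¬ ∃ i, (p : ℤ) ∣ (f i).eval (n : ℤ) + m i), h n|) ∪
      (Fintype.piFinset fun i => Icc (-(B * x ^ (f i).natDegree : ℤ)) (B * x ^ (f i).natDegree : ℤ)).filter (fun m => (x : ℝ) / L ^ (U + 1) <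
        |T (fun _ => 1) f m x - (Vz z)⁻¹ ^ k * ∑ n ∈ (Icc 1 x).filter (fun n : ℕ => ∀ p ∈ pz z, ¬ ∃ i, (p : ℤ) ∣ (f i).eval (n : ℤ) + m i), 1|) := by
    intro m hm
    rw [mem_filter] at hm
    rw [mem_union, mem_filter, mem_filter]
    by_contra hcon
    rw [not_or, not_and, not_and, not_lt, not_lt] at hcon
    have g1 := hcon.1 hm.1
    have g2 := hcon.2 hm.1
    have g3 : |∑ n ∈ (Icc 1 x).filter (fun n : ℕ => ∀ p ∈ pz z, ¬ ∃ i, (p : ℤ) ∣ (f i).eval (n : ℤ) + m i), h n| ≤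
        ε * ((((Icc 1 x).filter (fun n : ℕ => ∀ p ∈ pz z, ¬ ∃ i, (p : ℤ) ∣ (f i).eval (n : ℤ) + m i)).card : ℕ) : ℝ) +
          x / L ^ (U + 1 + k) := by
      convert a2 z z3 z2 _ (perB f hf m)
    have g4 := hm.2
    rw [sum_const, nsmul_eq_mul, mul_one] at g2
    generalize hH : ∑ n ∈ (Icc 1 x).filter (fun n : ℕ => ∀ p ∈ pz z, ¬ ∃ i, (p : ℤ) ∣ (f i).eval (n : ℤ) + m i), h n = H at *
    generalize hS : ((((Icc 1 x).filter (fun n : ℕ => ∀ p ∈ pz z, ¬ ∃ i, (p : ℤ) ∣ (f i).eval (n : ℤ) + m i)).card : ℕ) : ℝ) = S at *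
    generalize (Vz z)⁻¹ ^ k = V at *
    have g5 : |V * H| ≤ ε * (V * S) + x / L ^ (U + 1) := by
      rw [abs_mul, abs_of_nonneg hVk0]
      have e1 : V * |H| ≤ V * (ε * S + x / L ^ (U + 1 + k)) := mul_le_mul_of_nonneg_left g3 hVk0
      have e2 : V * (x / L ^ (U + 1 + k)) ≤ L ^ k * (x / L ^ (U + 1 + k)) := mul_le_mul_of_nonneg_right hVk (by positivity)
      have e3 : L ^ k * (x / L ^ (U + 1 + k)) = x / L ^ (U + 1) := by
        rw [pow_add L (U + 1) k]
        field_simp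
      nlinarith
    have g6 : (2 + ε) * (x / L ^ (U + 1)) ≤ x / L ^ U := by
      have e1 : x / L ^ U = L * (x / L ^ (U + 1)) := by
        rw [pow_succ]
        field_simp
      rw [e1]
      exact mul_le_mul_of_nonneg_right a4 (by positivity)
    have g7 : V * S ≤ T (fun _ => 1) f m x + x / L ^ (U + 1) := by
      have := (abs_le.1 g2).1
      linarith
    have g8 : ε * (V * S) ≤ ε * (T (fun _ => 1) f m x + x / L ^ (U + 1)) := mul_le_mul_of_nonneg_left g7 hε.le
    have g9 : |T h f m x| ≤ |T h f m x - V * H| + |V * H| := by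
      have := abs_add_le (T h f m x - V * H) (V * H)
      rwa [sub_add_cancel] at this
    linarith
  have hfin : (exceptions h f ε B U x : ℝ) ≤ x ^ (∑ i, (f i).natDegree) / L ^ (U + 1) + x ^ (∑ i, (f i).natDegree) / L ^ (U + 1) := by
    refine le_trans ?_ (add_le_add b1 b2)
    unfold exceptions
    have := (card_le_card hsub).trans (card_union_le _ _)
    exact_mod_cast this
  refine hfin.trans ?_
  have e1 : (x : ℝ) ^ (∑ i, (f i).natDegree) / L ^ U = L * (x ^ (∑ i, (f i).natDegree) / L ^ (U + 1)) := by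
    rw [pow_succ]
    field_simp
  rw [e1]
  have e2 : 0 ≤ (x : ℝ) ^ (∑ i, (f i).natDegree) / L ^ (U + 1) := by positivity
  nlinarith

/-- Let `f 1, ..., f k` be nonconstant integer polynomials of degrees `d 1, ..., d k` and fix `B ≥ 1`, `U`
and `ε > 0`.

* (Möbius) For all large `x`, all integer vectors `m` with `|m i| ≤ B x ^ (d i)`, but at most
  `x ^ (d 1 + ... + d k) / (log x) ^ U` of them, satisfy
  `|∑_{n ≤ x} μ(n) ∏_i Λ(|f i (n) + m i|)| ≤ ε ∑_{n ≤ x} ∏_i Λ(|f i (n) + m i|) + x / (log x) ^ U`.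
* (general) The same with `μ` replaced by any function `h` with `|h| ≤ 1` which has the
  Siegel-Walfisz property. -/
theorem result {k : ℕ} (f : Fin k → ℤ[X]) (hf : ∀ i, 1 ≤ (f i).natDegree) (B U : ℕ) (hB : 1 ≤ B) (ε : ℝ) (hε : 0 < ε) :
    (∃ x₀ : ℕ, ∀ x : ℕ, x₀ ≤ x →
      (exceptions (fun n => ((ArithmeticFunction.moebius n : ℤ) : ℝ)) f ε B U x : ℝ) ≤
        x ^ (∑ i, (f i).natDegree) / Real.log x ^ U) ∧
    (∀ h : ℕ → ℝ, (∀ n, |h n| ≤ 1) → SiegelWalfisz h → ∃ x₀ : ℕ, ∀ x : ℕ, x₀ ≤ x →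
      (exceptions h f ε B U x : ℝ) ≤ x ^ (∑ i, (f i).natDegree) / Real.log x ^ U) := by
  refine ⟨?_, fun h hh hSW => main f hf B U hB ε hε h hh hSW⟩
  refine main f hf B U hB ε hε _ (fun n => muR_abs n) (fun K U => ?_)
  obtain ⟨N0, hN0⟩ := mu_ap K U
  exact ⟨N0, fun N hN q hq hqK a => hN0 N hN q hq hqK a N le_rfl⟩

end Pool.Agent.Results.MP_0bfb7f_nt.PrimesAlongPolynomials
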