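import Mathlib
import Pool.Agent.H373R2.T7.SegE
import Pool.Agent.H373R2.T7.BilEA
import Pool.Agent.H373R2.T7.SupLiou

/-!
# The Moebius function along shifted primes, for almost all shifts of every family of nearly minimal
additive energy

`S g h X = ∑_{n ≤ X} μ(n) g(n - h) Λ(n - h)` (`Λ = 0` at integers `≤ 0`), `|g| ≤ 1`; for `g = 1` and
`h = 1` this is the sum of the problem. The theorem treats families `s 1, ..., s x` of shifts in
`[-B N, B N]` which may be as thin as `N^(1/r)`, for every fixed `r`.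

The proof uses the starting files `Pool/Agent/H373R2/T7/` (exponential sums over the Moebius function
with arbitrary logarithmic savings, bilinear estimate for families with a given additive energy).
-/

set_option autoImplicit false

namespace Pool.Agent.Results.MP_0bfb7f_nt.ShiftFamilies

open Finset Polynomial Pool.Agent.H373R2.T7

/-- `∑_{1 ≤ n ≤ X} μ(n) g(n - h) Λ(n - h)`, where `Λ(j) = 0` for `j ≤ 0`. -/
noncomputable def S (g : ℕ → ℝ) (h : ℤ) (X : ℕ) : ℝ :=
  ∑ n ∈ Icc 1 X, ((ArithmeticFunction.moebius n : ℤ) : ℝ) *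
    (g ((n : ℤ) - h).toNat * ArithmeticFunction.vonMangoldt ((n : ℤ) - h).toNat)

/-- the additive energy of order `r` of the family `s 1, ..., s x`: the number of solutions of
`s (u 1) + ... + s (u r) = s (v 1) + ... + s (v r)` with all `u i`, `v i` in `{1, ..., x}` -/
def energy (r x : ℕ) (s : ℕ → ℤ) : ℕ :=
  (((Fintype.piFinset fun _ : Fin r => Icc 1 x) ×ˢ (Fintype.piFinset fun _ : Fin r => Icc 1 x)).filter
    (fun q => ∑ i, s (q.1 i) = ∑ i, s (q.2 i))).card

/-- the number of representations of `t` as a sum of `r` members of the family `s 1, ..., s x` -/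
def reps (r x : ℕ) (s : ℕ → ℤ) (t : ℤ) : ℕ :=
  ((Fintype.piFinset fun _ : Fin r => Icc 1 x).filter (fun u => ∑ i, s (u i) = t)).card

open Classical in
/-- the number of members `s m` of the family `s 1, ..., s x` for which
`|S g (s m) X| ≤ N / (log N) ^ U` fails for some `X ≤ N` -/
noncomputable def exceptions (g : ℕ → ℝ) (U N x : ℕ) (s : ℕ → ℤ) : ℕ :=
  ((Icc 1 x).filter (fun m => ∃ X : ℕ, X ≤ N ∧ (N : ℝ) / Real.log N ^ U < |S g (s m) X|)).card

lemma S_eq (g : ℕ → ℝ) (h : ℤ) (X : ℕ) : S g h X = ∑ k ∈ Icc 1 ((X : ℤ) - h).toNat,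
    (g k * ArithmeticFunction.vonMangoldt k) *
      ((ArithmeticFunction.moebius ((k : ℤ) + h).toNat : ℤ) : ℝ) := by
  unfold S
  have e1 : ∑ n ∈ Icc 1 X, ((ArithmeticFunction.moebius n : ℤ) : ℝ) *
      (g ((n : ℤ) - h).toNat * ArithmeticFunction.vonMangoldt ((n : ℤ) - h).toNat) =
      ∑ n ∈ (Icc 1 X).filter (fun n : ℕ => 1 ≤ (n : ℤ) - h), ((ArithmeticFunction.moebius n : ℤ) : ℝ) *
      (g ((n : ℤ) - h).toNat * ArithmeticFunction.vonMangoldt ((n : ℤ) - h).toNat) := by
    symm
    apply sum_filter_of_ne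
    intro n _ hne
    by_contra hc
    apply hne
    have : ((n : ℤ) - h).toNat = 0 := by omega
    rw [this]
    simp
  have e2 : ∑ k ∈ Icc 1 ((X : ℤ) - h).toNat, (g k * ArithmeticFunction.vonMangoldt k) *
      ((ArithmeticFunction.moebius ((k : ℤ) + h).toNat : ℤ) : ℝ) =
      ∑ k ∈ (Icc 1 ((X : ℤ) - h).toNat).filter (fun k : ℕ => 1 ≤ (k : ℤ) + h),
        (g k * ArithmeticFunction.vonMangoldt k) *
      ((ArithmeticFunction.moebius ((k : ℤ) + h).toNat : ℤ) : ℝ) := by
    symm
    apply sum_filter_of_ne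
    intro n _ hne
    by_contra hc
    apply hne
    have : ((n : ℤ) + h).toNat = 0 := by omega
    rw [this]
    simp
  rw [e1, e2]
  refine sum_bij' (fun n _ => ((n : ℤ) - h).toNat) (fun k _ => ((k : ℤ) + h).toNat) ?_ ?_ ?_ ?_ ?_
  · intro n hn
    simp only [mem_filter, mem_Icc] at hn ⊢
    omega
  · intro n hn
    simp only [mem_filter, mem_Icc] at hn ⊢
    omega
  · intro n hn
    simp only [mem_filter, mem_Icc] at hn
    omega
  · intro n hn
    simp only [mem_filter, mem_Icc] at hn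
    omega
  · intro n hn
    simp only [mem_filter, mem_Icc] at hn
    have : ((((n : ℤ) - h).toNat : ℤ) + h).toNat = n := by omega
    rw [this, mul_comm]

/-- the weight -/
noncomputable def Gw (g : ℕ → ℝ) (T : ℕ) (L : ℝ) (a : ℕ) : ℂ :=
  if a ≤ T then ((g a * (ArithmeticFunction.vonMangoldt a) / L ^ 2 : ℝ) : ℂ) else 0

theorem main (r B C U : ℕ) : ∃ N₀ : ℕ, ∀ N : ℕ, N₀ ≤ N → ∀ g : ℕ → ℝ, (∀ a, |g a| ≤ 1) →
    ∀ (x : ℕ) (s : ℕ → ℤ), (∀ m ∈ Icc 1 x, |s m| ≤ B * N) →
    (energy r x s : ℝ) * N ≤ Real.log N ^ C * (x : ℝ) ^ (2 * r) →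
    (exceptions g U N x s : ℝ) ≤ x / Real.log N ^ U := by
  classical
  obtain ⟨N1, h1⟩ := seg_e muC muC_norm sup_muC r (B + 1) C (U + 2)
  have hev : ∀ᶠ N : ℕ in Filter.atTop, ((B : ℝ) + 4) ≤ Real.log N :=
    (Real.tendsto_log_atTop.comp tendsto_natCast_atTop_atTop).eventually_ge_atTop _
  obtain ⟨N2, h2⟩ := Filter.eventually_atTop.1 hev
  refine ⟨max N1 (max N2 3), fun N hN g hg x s hs hE => ?_⟩
  have hN3 : 3 ≤ N := le_trans (le_trans (le_max_right _ _) (le_max_right _ _)) hN
  have hNr : (3 : ℝ) ≤ N := by exact_mod_cast hN3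
  have hN0 : (0 : ℝ) < N := by linarith
  have hLB := h2 N (le_trans (le_trans (le_max_left _ _) (le_max_right _ _)) hN)
  set L := Real.log N with hL
  have hB0 : (0 : ℝ) ≤ B := Nat.cast_nonneg B
  have hL1 : 1 ≤ L := by linarith
  have hL0 : 0 < L := by linarith
  have hG : ∀ a, ‖Gw g ((B + 1) * N) L a‖ ≤ 1 := by
    intro a
    unfold Gw
    split_ifs with ha
    · rw [Complex.norm_real, Real.norm_eq_abs, abs_div, abs_mul,
        abs_of_nonneg (ArithmeticFunction.vonMangoldt_nonneg (n := a)),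
        abs_of_pos (show (0:ℝ) < L ^ 2 by positivity), div_le_one (by positivity)]
      refine (mul_le_of_le_one_left ArithmeticFunction.vonMangoldt_nonneg (hg a)).trans ?_
      refine ArithmeticFunction.vonMangoldt_le_log.trans ?_
      rcases Nat.eq_zero_or_pos a with h0 | h0
      · rw [h0]
        simp only [Nat.cast_zero, Real.log_zero]
        positivity
      have h3 : Real.log (a : ℝ) ≤ Real.log (((B : ℝ) + 1) * N) := by
        apply Real.log_le_log (by exact_mod_cast h0)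
        exact_mod_cast ha
      have h4 : Real.log (((B : ℝ) + 1) * N) = Real.log ((B : ℝ) + 1) + L := by
        rw [Real.log_mul (by positivity) (by positivity)]
      have h5 : Real.log ((B : ℝ) + 1) ≤ (B : ℝ) := by
        have := Real.log_le_sub_one_of_pos (show (0:ℝ) < (B : ℝ) + 1 by positivity)
        linarith
      have : L + L ≤ L ^ 2 := by nlinarith
      linarith
    · simp
  have hE' : (Pool.Agent.H373R2.T7.energy r x s : ℝ) * N ≤ L ^ C * (x : ℝ) ^ (2 * r) := hE
  have h3 := h1 N (le_trans (le_max_left _ _) hN) x s (fun m hm => by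
    refine (hs m hm).trans ?_
    push_cast
    nlinarith [(Nat.cast_nonneg N : (0:ℤ) ≤ N)]) hE' (Gw g ((B + 1) * N) L) hG
  have hpow : x / L ^ (U + 2) ≤ (x : ℝ) / L ^ U := by
    apply div_le_div_of_nonneg_left (Nat.cast_nonneg x) (by positivity)
    exact pow_le_pow_right₀ hL1 (by omega)
  refine le_trans ?_ (h3.trans hpow)
  unfold exceptions
  rw [Nat.cast_le]
  apply card_le_card
  intro m hm
  rw [mem_filter] at hm ⊢
  obtain ⟨hm1, X, hX, hS⟩ := hm
  refine ⟨hm1, ((X : ℤ) - s m).toNat, ?_, ?_⟩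
  · have h4 := hs m hm1
    have h5 := abs_le.1 h4
    have h6 : ((X : ℤ) - s m) ≤ ((B + 1) * N : ℕ) := by
      push_cast
      have : (X : ℤ) ≤ N := by exact_mod_cast hX
      nlinarith [h5.1]
    omega
  · have hA : ((X : ℤ) - s m).toNat ≤ (B + 1) * N := by
      have h4 := hs m hm1
      have h5 := abs_le.1 h4
      have h6 : ((X : ℤ) - s m) ≤ ((B + 1) * N : ℕ) := by
        push_cast
        have : (X : ℤ) ≤ N := by exact_mod_cast hX
        nlinarith [h5.1]
      omega
    have e : ∑ a ∈ Icc 1 ((X : ℤ) - s m).toNat, Gw g ((B + 1) * N) L a * exI muC (a + s m) =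
        ((S g (s m) X / L ^ 2 : ℝ) : ℂ) := by
      rw [S_eq, sum_div]
      push_cast
      apply sum_congr rfl
      intro a ha
      rw [mem_Icc] at ha
      unfold Gw
      rw [if_pos (ha.2.trans hA), exI_mu]
      push_cast
      ring
    rw [e, Complex.norm_real, Real.norm_eq_abs, abs_div, abs_of_pos (show (0:ℝ) < L ^ 2 by positivity),
      lt_div_iff₀ (by positivity)]
    refine lt_of_le_of_lt (le_of_eq ?_) hS
    have e5 : (N : ℝ) / L ^ (U + 2) * L ^ 2 = N / L ^ U := by
      rw [pow_add]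
      field_simp
    exact e5

lemma energy_le (r x J : ℕ) (s : ℕ → ℤ) (hJ : ∀ t, reps r x s t ≤ J) : energy r x s ≤ x ^ r * J := by
  unfold energy
  rw [card_filter, sum_product]
  calc ∑ v ∈ Fintype.piFinset fun _ : Fin r => Icc 1 x, ∑ w ∈ Fintype.piFinset fun _ : Fin r => Icc 1 x,
        (if ∑ i, s (v i) = ∑ i, s (w i) then 1 else 0) ≤
      ∑ _v ∈ Fintype.piFinset fun _ : Fin r => Icc 1 x, J := by
        apply sum_le_sum
        intro v _
        rw [← card_filter]
        refine le_trans (le_of_eq ?_) (hJ (∑ i, s (v i)))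
        unfold reps
        congr 1
        apply filter_congr
        intro w _
        exact eq_comm
    _ = x ^ r * J := by
        rw [sum_const, Fintype.card_piFinset, prod_const, card_univ, Fintype.card_fin, Nat.card_Icc,
          smul_eq_mul, Nat.add_sub_cancel]

/-- Let `r`, `B`, `C`, `U` be fixed, let `N` be large and let `g` be any function with `|g| ≤ 1`
(`g = 1`, or the indicator function of any set of primes).

* For every family of shifts `s 1, ..., s x` in `[-B N, B N]` whose additive energy of order `r` is at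
  most `log^C N` times `x ^ (2 r) / N`, all but at most `x / log^U N` of its members `h` satisfy
  `|∑_{n ≤ X} μ(n) g(n - h) Λ(n - h)| ≤ N / log^U N` for all `X ≤ N`.
* In particular this holds if no integer has more than `J` representations as a sum of `r` members
  (a `B_r[J]`-family) and `x ^ r ≥ N / log^C N`.
* It holds for the values `h = f(m)`, `m ≤ x`, of every nonconstant polynomial `f` with integer
  coefficients and positive leading coefficient, if `x ^ (deg f)` has the order of magnitude of `N`. -/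
theorem result (B C U : ℕ) :
    (∀ r : ℕ, ∃ N₀ : ℕ, ∀ N : ℕ, N₀ ≤ N → ∀ g : ℕ → ℝ, (∀ a, |g a| ≤ 1) → ∀ (x : ℕ) (s : ℕ → ℤ),
      (∀ m ∈ Icc 1 x, |s m| ≤ B * N) →
      (energy r x s : ℝ) * N ≤ Real.log N ^ C * (x : ℝ) ^ (2 * r) →
      (exceptions g U N x s : ℝ) ≤ x / Real.log N ^ U) ∧
    (∀ r J : ℕ, ∃ N₀ : ℕ, ∀ N : ℕ, N₀ ≤ N → ∀ g : ℕ → ℝ, (∀ a, |g a| ≤ 1) → ∀ (x : ℕ) (s : ℕ → ℤ),
      (∀ m ∈ Icc 1 x, |s m| ≤ B * N) →
      (∀ t, reps r x s t ≤ J) → (N : ℝ) ≤ Real.log N ^ C * (x : ℝ) ^ r →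
      (exceptions g U N x s : ℝ) ≤ x / Real.log N ^ U) ∧
    (∀ f : ℤ[X], 1 ≤ f.natDegree → 0 < f.leadingCoeff → ∃ N₀ : ℕ, ∀ N : ℕ, N₀ ≤ N →
      ∀ g : ℕ → ℝ, (∀ a, |g a| ≤ 1) → ∀ x : ℕ,
      N ≤ B * x ^ f.natDegree → x ^ f.natDegree ≤ B * N →
      (exceptions g U N x (fun m => f.eval (m : ℤ)) : ℝ) ≤ x / Real.log N ^ U) := by
  refine ⟨fun r => main r B C U, fun r J => ?_, fun f hd hl => ?_⟩
  · obtain ⟨N₀, h0⟩ := main r B (C + 1) U
    have hev : ∀ᶠ N : ℕ in Filter.atTop, ((J : ℝ) + 1) ≤ Real.log N :=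
      (Real.tendsto_log_atTop.comp tendsto_natCast_atTop_atTop).eventually_ge_atTop _
    obtain ⟨N₁, h1⟩ := Filter.eventually_atTop.1 hev
    refine ⟨max N₀ N₁, fun N hN g hg x s hs hJ hx => ?_⟩
    have hL := h1 N (le_trans (le_max_right _ _) hN)
    refine h0 N (le_trans (le_max_left _ _) hN) g hg x s hs ?_
    have h2 : (energy r x s : ℝ) ≤ (x : ℝ) ^ r * J := by exact_mod_cast energy_le r x J s hJ
    set L := Real.log N
    have hJ0 : (0 : ℝ) ≤ J := Nat.cast_nonneg J
    have hL0 : 0 < L := by linarith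
    calc (energy r x s : ℝ) * N ≤ ((x : ℝ) ^ r * J) * (L ^ C * (x : ℝ) ^ r) := by
          apply mul_le_mul h2 hx (Nat.cast_nonneg N) (by positivity)
      _ = J * (L ^ C * (x : ℝ) ^ (2 * r)) := by ring
      _ ≤ L * (L ^ C * (x : ℝ) ^ (2 * r)) := by
          apply mul_le_mul_of_nonneg_right (by linarith) (by positivity)
      _ = L ^ (C + 1) * (x : ℝ) ^ (2 * r) := by ring
  · obtain ⟨p, C', hC', hen⟩ := energy_poly f hd hl
    obtain ⟨N₀, h0⟩ := main p (cf f * B) 1 U
    have hev : ∀ᶠ N : ℕ in Filter.atTop, ((B : ℝ) * C') ≤ Real.log N :=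
      (Real.tendsto_log_atTop.comp tendsto_natCast_atTop_atTop).eventually_ge_atTop _
    obtain ⟨N₁, h1⟩ := Filter.eventually_atTop.1 hev
    refine ⟨max (max N₀ N₁) 1, fun N hN g hg x hx1 hx2 => ?_⟩
    have hL := h1 N (le_trans (le_trans (le_max_right _ _) (le_max_left _ _)) hN)
    have hN1 : 1 ≤ N := le_trans (le_max_right _ _) hN
    have hx : 1 ≤ x := by
      rcases Nat.eq_zero_or_pos x with h | h
      · subst h
        rw [zero_pow (by omega)] at hx1
        omega
      · exact h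
    refine h0 N (le_trans (le_trans (le_max_left _ _) (le_max_left _ _)) hN) g hg x _ ?_ ?_
    · intro m hm
      rw [mem_Icc] at hm
      refine (abs_eval_le f m hm.1).trans ?_
      have h3 : (m : ℤ) ^ f.natDegree ≤ (x : ℤ) ^ f.natDegree := by
        exact_mod_cast Nat.pow_le_pow_left hm.2 _
      have h4 : (x : ℤ) ^ f.natDegree ≤ (B : ℤ) * N := by exact_mod_cast hx2
      push_cast
      calc (cf f : ℤ) * (m : ℤ) ^ f.natDegree ≤ (cf f : ℤ) * ((B : ℤ) * N) := by
            apply mul_le_mul_of_nonneg_left (h3.trans h4) (Nat.cast_nonneg _)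
        _ = (cf f : ℤ) * B * N := by ring
    · have h3 := hen x hx
      have h4 : (N : ℝ) ≤ B * (x : ℝ) ^ f.natDegree := by exact_mod_cast hx1
      have h5 : (0 : ℝ) ≤ energy p x (fun m => f.eval (m : ℤ)) := Nat.cast_nonneg _
      have h3' : (energy p x (fun m => f.eval (m : ℤ)) : ℝ) * (x : ℝ) ^ f.natDegree ≤
        C' * (x : ℝ) ^ (2 * p) := h3
      calc (energy p x (fun m => f.eval (m : ℤ)) : ℝ) * N ≤
          (energy p x (fun m => f.eval (m : ℤ)) : ℝ) * (B * (x : ℝ) ^ f.natDegree) :=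
            mul_le_mul_of_nonneg_left h4 h5
        _ = B * ((energy p x (fun m => f.eval (m : ℤ)) : ℝ) * (x : ℝ) ^ f.natDegree) := by ring
        _ ≤ B * (C' * (x : ℝ) ^ (2 * p)) := mul_le_mul_of_nonneg_left h3' (Nat.cast_nonneg B)
        _ = (B * C') * (x : ℝ) ^ (2 * p) := by ring
        _ ≤ Real.log N ^ 1 * (x : ℝ) ^ (2 * p) := by
            rw [pow_one]
            exact mul_le_mul_of_nonneg_right hL (by positivity)

end Pool.Agent.Results.MP_0bfb7f_nt.ShiftFamilies
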